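import Pool.Agent.H651.RN.Comb

/-!
# The priority construction: no index is true
-/

set_option autoImplicit false

namespace Pool.Agent.H651.RN

open Encodable Denumerable
open Nat.Partrec (Code)

/-- `f` is a path of `T` -/
def Path (T : List Bool → Prop) (f : ℕ → Bool) : Prop := ∀ n, T (res f n)

/-- the set enumerated from `H` -/
def W (e : ℕ) (q : Par) (H : ℕ → Bool) : Set ℕ := {y | ∃ n, Out e q (res H n) y}

/-- the set of the strings in `Y` for which `G` is homogeneous is infinite -/
def HomY (G : Set ℕ) (Y : List Bool → Prop) : Prop :=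
  {σ : List Bool | Y σ ∧ ∃ c : Bool, ∀ i ∈ G, ∀ b : Bool, σ[i]? = some b → b = c}.Infinite

lemma exists_long {P : List Bool → Prop} (h : {σ | P σ}.Infinite) (n : ℕ) :
    ∃ σ, P σ ∧ n ≤ σ.length := by
  by_contra hne
  push Not at hne
  exact h ((List.finite_length_lt Bool n).subset fun σ hσ => hne σ hσ)

/-- the string `G` is contained in the side `j` of `f` -/
def SubF (j : Bool) (G : List Bool) (f : ℕ → Bool) : Prop := ∀ x, G.getD x false = true → f x = j

lemma lt_of_getD {G : List Bool} {x : ℕ} (h : G.getD x false = true) : x < G.length := by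
  by_contra hx
  rw [List.getD_eq_default _ _ (not_lt.1 hx)] at h
  exact Bool.false_ne_true h

/-- the properties of an index which cannot be improved -/
structure TrueIdx (e : ℕ) : Prop where
  path : ∃ f, Path (TT e) f
  out : ∀ f, Path (TT e) f → ∀ q ∈ (dec e).2.1, ∀ G, SubF q.1.1 G f → ∀ b, ∃ G',
    G <+: G' ∧ SubF q.1.1 G' f ∧ ∃ y, b ≤ y ∧ Out e q G' y
  hom : ∀ f, Path (TT e) f → ∀ q ∈ (dec e).2.1, ∀ G, SubF q.1.1 G f → ∀ s, ∃ τ,
    YT q.1.2 τ ∧ s ≤ τ.length ∧ ∀ y z, y < s → z < s → Out e q G y → Out e q G z →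
      τ.getD y false = τ.getD z false
  sol : ∀ f, Path (TT e) f → ∀ (j l : Bool) (H : ℕ → Bool), (∀ x, H x = true → f x = j) →
    {x | H x = true}.Infinite → ∃ q ∈ (dec e).2.1, q.1 = (j, l) ∧ (W e q H).Infinite

lemma TT_prefix {e : ℕ} {σ τ : List Bool} (h : σ <+: τ) (hτ : TT e τ) : TT e σ := by
  intro t ht hs
  have hl := h.length_le
  refine hτ t (by omega) ?_
  rw [take_eq_of_prefix h (by omega)]
  obtain ⟨v, hv⟩ := Option.isSome_iff_exists.1 hs
  have := Code.evaln_mono hl (Option.mem_def.2 hv)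
  rw [Option.mem_def.1 this]; rfl

lemma gg_seq {e : ℕ} (he : TrueIdx e) {f : ℕ → Bool} (hf : Path (TT e) f) (j : Bool) (b : ℕ)
    (Q : List Par) (hQ : ∀ q ∈ Q, q ∈ (dec e).2.1 ∧ q.1.1 = j) :
    ∃ (G : List Bool) (u : ℕ), SubF j G f ∧ G.length ≤ u ∧
      ∀ q ∈ Q, ∃ x < u, b ≤ x ∧ Out e q G x := by
  induction Q with
  | nil => exact ⟨[], 0, fun x hx => by simp at hx, by simp, by simp⟩
  | cons q Q ih =>
    obtain ⟨G, u, h1, h2, h3⟩ := ih fun q hq => hQ q (List.mem_cons_of_mem _ hq)
    obtain ⟨hq1, hq2⟩ := hQ q List.mem_cons_self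
    subst hq2
    obtain ⟨G', hG', h4, y, hy, ho⟩ := he.out f hf q hq1 G h1 b
    refine ⟨G', max u (max (y + 1) G'.length), h4, by omega, fun q' hq' => ?_⟩
    rcases List.mem_cons.1 hq' with rfl | hq'
    · exact ⟨y, by omega, hy, ho⟩
    · obtain ⟨x, hx, hbx, hox⟩ := h3 q' hq'
      exact ⟨x, by omega, hbx, Out_mono hG' hox⟩

lemma gg_aux {e : ℕ} (he : TrueIdx e) (b : ℕ) (j : Bool) : ∃ u, ∀ ρ, TT e ρ → u ≤ ρ.length →
      ∃ F : List Bool, F.length = ρ.length ∧ Sub j F ρ ρ.length ∧
        ∀ q ∈ (dec e).2.1, q.1.1 = j → ∃ x < ρ.length, b ≤ x ∧ Out e q F x := by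
  classical
  by_contra hne
  simp only [not_exists, not_forall] at hne
  obtain ⟨f, hf⟩ := konig (S := fun ρ => TT e ρ ∧ ¬ ∃ F : List Bool, F.length = ρ.length ∧
    Sub j F ρ ρ.length ∧ ∀ q ∈ (dec e).2.1, q.1.1 = j → ∃ x < ρ.length, b ≤ x ∧ Out e q F x)
    (fun n => by
      obtain ⟨ρ, h1, h3, h4⟩ := hne n
      refine ⟨ρ, ⟨h1, ?_⟩, h3⟩
      rintro ⟨F, h5⟩
      exact h4 F h5)
  have hp : Path (TT e) f := fun n => by
    obtain ⟨σ, h1, _, h3⟩ := hf n 0
    exact TT_prefix h3 h1.1
  obtain ⟨G, u, h1, h2, h3⟩ := gg_seq he hp j b ((dec e).2.1.filter fun q => q.1.1 = j)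
    (fun q hq => by simpa using hq)
  obtain ⟨σ, ⟨h4, h5⟩, _, h6⟩ := hf u 0
  have hlen := h6.length_le
  rw [res_length] at hlen
  have hpre : G <+: G ++ List.replicate (σ.length - G.length) false := List.prefix_append _ _
  apply h5
  refine ⟨G ++ List.replicate (σ.length - G.length) false, by simp; omega, ?_, ?_⟩
  · intro x hx hxF
    have hxl : x < G.length := by
      by_contra hxl
      rw [List.getD_append_right _ _ _ _ (not_lt.1 hxl)] at hxF
      simp [List.getD, List.getElem?_replicate] at hxF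
      split at hxF <;> simp at hxF
    rw [List.getD_append _ _ _ _ hxl] at hxF
    rw [getD_prefix h6 (by rw [res_length]; omega), res_getD _ (by omega)]
    exact h1 x hxF
  · intro q hq hqj
    obtain ⟨x, hx, hbx, hox⟩ := h3 q (by simp [hq, hqj])
    exact ⟨x, by omega, hbx, Out_mono hpre hox⟩

lemma exists_IsU {e : ℕ} (he : TrueIdx e) (b : ℕ) : ∃ u, IsU e b u := by
  classical
  have h : ∃ u, GG e b u := by
    choose U hU using fun j => gg_aux he b j
    refine ⟨U false + U true, fun ρ hρ hT j => ?_⟩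
    rw [mem_strs] at hρ
    obtain ⟨F, h1, h2, h3⟩ := hU j ρ hT (by rw [hρ]; rcases j with _ | _ <;> omega)
    rw [hρ] at h1 h2 h3
    exact ⟨F, mem_strs.2 h1, h2, h3⟩
  exact ⟨Nat.find h, Nat.find_spec h, fun u' hu' => Nat.find_min h hu'⟩

/-- an action of a true index whose string is on a path is impossible -/
lemma acted_false {e : ℕ} (he : TrueIdx e) {A : Act} (hA : IsAct A)
    (hAe : A.1.1.1 = e) {f : ℕ → Bool} (hf : Path (TT e) f)
    (hρ : res f A.1.2.1.1.length = A.1.2.1.1) : False := by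
  obtain ⟨hlt, hc, hPP, hh⟩ := mem_hist_act hA
  have hlen : A.1.2.1.1.length ≤ A.2 := by
    simp only [cand, List.product, List.mem_flatMap, List.mem_map] at hc
    obtain ⟨p, _, q, ⟨S, ⟨ρ, ⟨n, hn, hρn⟩, F, _, rfl⟩, q', _, rfl⟩, hpq⟩ := hc
    rw [← hpq, mem_strs.1 hρn]
    have := List.mem_range.1 hn
    omega
  subst hAe
  obtain ⟨q, hq, F, hF, hF1, hF2, y, hy, hby, hoy, z, hz, hbz, hoz, hne⟩ :=
    hPP.1.2.2.2.2.2 (res f A.2) (res_mem _ _) (hf _) (by rw [res_take _ hlen, hρ])
  rw [mem_strs] at hF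
  have hFf : SubF q.1.1 F f := by
    intro x hx
    have hxl := lt_of_getD hx
    have := hF1 x (by omega) hx
    rwa [res_getD _ (by omega)] at this
  obtain ⟨τ, hτ, hτl, hτc⟩ := he.hom f hf q hq F hFf (A.2 + 1)
  obtain ⟨d, hd⟩ := hτ A (hA.mem (by omega))
  have h5 := hd y hy hby
  have h6 := hd z hz hbz
  apply hne
  rw [hτc y z (by omega) (by omega) hoy hoz, h6] at h5
  exact (Bool.xor_left_inj.1 h5).symm

/-- the pattern colouring -/
def gphi (g : Bool → ℕ → Bool) (t : ℕ) (φ : Bool → Bool) (l : Bool) (x : ℕ) : Bool :=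
  xor (g l x) (φ l && decide (t ≤ x))

/-- all sets on the sides of `σ` that extend the given ones have monochromatic outputs -/
def Good (e b : ℕ) (S : Seed) (γ : Bool → ℕ → Bool) (σ : List Bool) : Prop :=
  ∀ q ∈ (dec e).2.1, ∀ F : List Bool, F.length = σ.length → Sub q.1.1 F σ σ.length →
    F.take S.1.length = sd q.1.1 S → ∀ y < σ.length, b ≤ y → Out e q F y →
      ∀ z < σ.length, b ≤ z → Out e q F z → γ q.1.2 y = γ q.1.2 z

lemma Good_prefix {e b : ℕ} {S : Seed} {γ : Bool → ℕ → Bool} {σ τ : List Bool}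
    (h : τ <+: σ) (hl : S.1.length ≤ τ.length) (hσ : Good e b S γ σ) : Good e b S γ τ := by
  intro q hq F hF hF1 hF2 y hy hby hoy z hz hbz hoz
  have hlen := h.length_le
  have hpre : F <+: F ++ List.replicate (σ.length - τ.length) false := List.prefix_append _ _
  refine hσ q hq (F ++ List.replicate (σ.length - τ.length) false) (by simp; omega) ?_ ?_
    y (by omega) hby (Out_mono hpre hoy) z (by omega) hbz (Out_mono hpre hoz)
  · intro x hx hxF
    by_cases hxl : x < F.length
    · rw [List.getD_append _ _ _ _ hxl] at hxF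
      rw [getD_prefix h (by omega)]
      exact hF1 x (by omega) hxF
    · rw [List.getD_append_right _ _ _ _ (by omega)] at hxF
      simp [List.getD, List.getElem?_replicate] at hxF
      split at hxF <;> simp at hxF
  · rw [take_eq_of_prefix hpre (by omega)]
    exact hF2

/-- an action of a true index is necessary -/
lemma never_acted {e : ℕ} (he : TrueIdx e) {b s0 u : ℕ}
    (hb : ∀ s, s0 ≤ s → IsRestr (hist s) e b) (hu : IsU e b u) {f : ℕ → Bool}
    {S : Seed} (hS1 : S.1 = res f u)
    (hS2 : S.2.1.length = u ∧ S.2.2.length = u) (hS3 : ∀ j, Sub j (sd j S) (res f u) u)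
    (hS4 : ∀ q ∈ (dec e).2.1, ∃ x < u, b ≤ x ∧ Out e q (sd q.1.1 S) x)
    (hnot : ∀ A, IsAct A → A.1.1 = (e, b) → A.1.2.1 ≠ S) : False := by
  obtain ⟨s1, hs1⟩ := fin_inj (e + 1)
  obtain ⟨t, ht, hcut⟩ := cut (max u b)
  have hut : u ≤ t := le_trans (le_max_left _ _) ht
  have hbt : b ≤ t := le_trans (le_max_right _ _) ht
  have hS1l : S.1.length = u := by rw [hS1, res_length]
  have hsdl : ∀ j, (sd j S).length = u := by
    intro j; rcases j with _ | _
    · exact hS2.1
    · exact hS2.2
  have hg' : ∀ l, ∃ g : ℕ → Bool, ∀ n, YT l (res g n) := by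
    intro l
    obtain ⟨g, hg⟩ := konig (YT_exists l)
    refine ⟨g, fun n => ?_⟩
    obtain ⟨σ, h1, _, h3⟩ := hg n 0
    exact YT_prefix h3 h1
  choose g hg using hg'
  have hallow : ∀ (φ : Bool → Bool) l A, IsAct A → ∀ s, A.2 ≤ s →
      Resp l A (res (gphi g t φ l) s) := by
    intro φ l A hA s hs
    obtain ⟨c, hc⟩ := hg l (A.2 + 1) A (by rw [res_length]; exact hA)
    rcases hcut A hA with h | h
    · refine ⟨c, fun x hx hbx => ?_⟩
      rw [res_getD _ (by omega), ← hc x hx hbx, res_getD _ (by omega)]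
      have : ¬ t ≤ x := by omega
      simp [gphi, this]
    · refine ⟨xor c (φ l), fun x hx hbx => ?_⟩
      have h3 := hc x hx hbx
      rw [res_getD _ (by omega)] at h3
      rw [res_getD _ (by omega)]
      have : t ≤ x := by omega
      simp only [gphi, this, decide_true, Bool.and_true]
      rw [h3, Bool.xor_assoc]
  have hS : ∀ (φ : Bool → Bool) n, ∃ σ, (TT e σ ∧ σ.take u = res f u ∧
      Good e b S (gphi g t φ) σ) ∧ n ≤ σ.length := by
    intro φ n
    set s := max (max n (max s0 s1)) (max (e + 1) (max b u)) with hs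
    have hn : n ≤ s := by omega
    have hs0' : s0 ≤ s := by omega
    have hs1' : s1 ≤ s := by omega
    have hes : e + 1 ≤ s := by omega
    have hbs : b ≤ s := by omega
    have hus : u ≤ s := by omega
    let c : Cand := ((e, b), (S, (res (gphi g t φ false) s, res (gphi g t φ true) s)))
    have hgam : ∀ l, gam l (c, s) = res (gphi g t φ l) s := by
      intro l; rcases l with _ | _ <;> rfl
    have hc : c ∈ cand s := by
      have hmem : ∀ w : List Bool, w.length = u → ∃ a ∈ List.range (s + 1), w ∈ strs a :=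
        fun w hw => ⟨u, List.mem_range.2 (by omega), mem_strs.2 hw⟩
      simp only [cand, List.product, List.mem_flatMap, List.mem_map]
      exact ⟨(e, b), ⟨e, List.mem_range.2 (by omega), b, List.mem_range.2 (by omega), rfl⟩,
        (S, (res (gphi g t φ false) s, res (gphi g t φ true) s)),
        ⟨S, ⟨S.1, hmem _ hS1l, S.2, ⟨S.2.1, hmem _ hS2.1, S.2.2, hmem _ hS2.2, rfl⟩, rfl⟩, _,
          ⟨_, res_mem _ _, _, res_mem _ _, rfl⟩, rfl⟩, rfl⟩
    have hnP : ¬ P0 (hist s) s c := by
      intro hP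
      obtain ⟨c', h1, h3⟩ := act_exists hc hP
      have := hs1 (c', s) h1 (Nat.lt_succ_of_le h3)
      simp only at this
      omega
    have hnK : ¬ KK c s := by
      intro hK
      refine hnP ⟨hb s hs0', ?_, ?_, ?_, ?_, hK⟩
      · show IsU e b S.1.length
        rw [hS1l]; exact hu
      · exact ⟨hS2.1.trans hS1l.symm, hS2.2.trans hS1l.symm⟩
      · intro A hA hAe
        exact hnot A (isAct_of_mem hA) hAe
      · intro A hA l
        rw [hgam]
        exact hallow φ l A (isAct_of_mem hA) s (mem_hist_act hA).1.le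
    simp only [KK, not_forall, not_exists, not_and, not_not] at hnK
    obtain ⟨σ, hσ1, hσ2, hσ3, hσ4⟩ := hnK
    rw [mem_strs] at hσ1
    refine ⟨σ, ⟨hσ2, ?_, ?_⟩, by omega⟩
    · have h4 : σ.take S.1.length = S.1 := hσ3
      rwa [hS1l, hS1] at h4
    · intro q hq F hF hF1 hF2 y hy hby hoy z hz hbz hoz
      rw [hσ1] at hy hz hF hF1
      have h5 := hσ4 q hq F (mem_strs.2 hF) hF1 hF2 y hy hby hoy z hz hbz hoz
      rw [hgam, res_getD _ hy, res_getD _ hz] at h5
      exact h5
  choose F hF using fun φ => konig (hS φ)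
  have hFp : ∀ φ, Path (TT e) (F φ) := fun φ n => by
    obtain ⟨σ, h1, _, h3⟩ := hF φ n 0
    exact TT_prefix h3 h1.1
  have hFu : ∀ φ, res (F φ) u = res f u := fun φ => by
    obtain ⟨σ, h1, _, h3⟩ := hF φ u 0
    rw [← h1.2.1, take_eq_of_prefix h3 (by simp)]
    rw [List.take_of_length_le (by simp)]
  have hFG : ∀ φ n, u ≤ n → Good e b S (gphi g t φ) (res (F φ) n) := fun φ n hn => by
    obtain ⟨σ, h1, _, h3⟩ := hF φ n 0
    exact Good_prefix h3 (by rw [hS1l, res_length]; exact hn) h1.2.2
  have final : ∀ (φ φ' : Bool → Bool) (l : Bool), φ l ≠ φ' l → ∀ j : Bool,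
      {x | F φ x = j ∧ F φ' x = j}.Finite := by
    intro φ φ' l hφ j
    by_contra hD
    let H : ℕ → Bool := fun x => if x < u then (sd j S).getD x false
      else (F φ x == j && F φ' x == j)
    have hHu : res H u = sd j S := by
      refine eq_of_getD (n := u) (by simp) (hsdl j) fun x hx => ?_
      rw [res_getD _ hx]
      simp [H, hx]
    have hfF : ∀ φ, ∀ x < u, F φ x = f x := fun φ x hx => by
      have := hFu φ
      have h3 : (res (F φ) u).getD x false = (res f u).getD x false := by rw [this]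
      rwa [res_getD _ hx, res_getD _ hx] at h3
    have hHf : ∀ x < u, H x = true → f x = j := by
      intro x hx hHx
      simp only [H, hx, if_true] at hHx
      have := hS3 j x hx hHx
      rwa [res_getD _ hx] at this
    have hH1 : ∀ x, H x = true → F φ x = j := by
      intro x hx
      by_cases h : x < u
      · rw [hfF φ x h]; exact hHf x h hx
      · simp only [H, h, if_false, Bool.and_eq_true, beq_iff_eq] at hx
        exact hx.1
    have hH2 : ∀ x, H x = true → F φ' x = j := by
      intro x hx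
      by_cases h : x < u
      · rw [hfF φ' x h]; exact hHf x h hx
      · simp only [H, h, if_false, Bool.and_eq_true, beq_iff_eq] at hx
        exact hx.2
    have hinf : {x | H x = true}.Infinite := by
      refine (Set.Infinite.sdiff hD (Set.finite_lt_nat u)).mono ?_
      rintro x ⟨⟨h1, h1'⟩, h3⟩
      have h3' : u ≤ x := not_lt.1 h3
      show H x = true
      simp [H, not_lt.2 h3', h1, h1']
    obtain ⟨q, hq, hqjl, hW⟩ := he.sol (F φ) (hFp φ) j l H hH1 hinf
    obtain ⟨y, ⟨n, hn⟩, hy⟩ := hW.exists_gt t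
    have hq1 : q.1.1 = j := by rw [hqjl]
    have hq2 : q.1.2 = l := by rw [hqjl]
    set N := max (max n (y + 1)) u with hN
    have hoy : Out e q (res H N) y := Out_mono (res_prefix H (by omega)) hn
    obtain ⟨x, hx, hbx, hox⟩ := hS4 q hq
    have hox' : Out e q (res H N) x := by
      rw [hq1, ← hHu] at hox
      exact Out_mono (res_prefix H (by omega)) hox
    have aux : ∀ ψ : Bool → Bool, (∀ x, H x = true → F ψ x = j) → g l x = xor (g l y) (ψ l) := by
      intro ψ hψ
      have h3 := hFG ψ N (by omega) q hq (res H N) (by simp) (fun z hz hz1 => by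
        rw [res_length] at hz
        rw [res_getD _ hz] at hz1 ⊢
        rw [hq1]
        exact hψ z hz1) (by rw [hS1l, res_take _ (by omega), hHu, hq1])
        x (by rw [res_length]; omega) hbx hox' y (by rw [res_length]; omega) (by omega) hoy
      have h4 : ¬ t ≤ x := by omega
      have h5 : t ≤ y := hy.le
      rw [hq2] at h3
      simpa [gphi, h4, h5] using h3
    have h6 := (aux φ hH1).symm.trans (aux φ' hH2)
    exact hφ (Bool.xor_right_inj.1 h6)
  have f1 := final (fun _ => false) (fun l => l) true (by simp)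
  have f2 := final (fun _ => false) (fun l => !l) false (by simp)
  have f3 := final (fun l => l) (fun l => !l) true (by simp)
  have huniv : (Set.univ : Set ℕ).Finite := by
    refine ((((f1 false).union (f1 true)).union ((f2 false).union (f2 true))).union
      ((f3 false).union (f3 true))).subset fun x _ => ?_
    simp only [Set.mem_union, Set.mem_ofPred_eq]
    rcases F (fun _ => false) x with _ | _ <;> rcases F (fun l => l) x with _ | _ <;>
      rcases F (fun l => !l) x with _ | _ <;> simp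
  exact Set.infinite_univ huniv

/-- no index is true -/
theorem not_trueIdx (e : ℕ) : ¬ TrueIdx e := by
  intro he
  obtain ⟨b, s0, hb⟩ := final_restr e
  obtain ⟨u, hu⟩ := exists_IsU he b
  obtain ⟨f, hp⟩ := he.path
  choose G hG1 hG2 hG3 using hu.1 (res f u) (res_mem _ _) (hp u)
  have hsd : ∀ j, sd j (res f u, (G false, G true)) = G j := by
    intro j; rcases j with _ | _ <;> rfl
  refine never_acted he hb hu (f := f) (S := (res f u, (G false, G true))) rfl
    ⟨mem_strs.1 (hG1 false), mem_strs.1 (hG1 true)⟩ (fun j => ?_) (fun q hq => ?_)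
    fun A hA hAe hρ => ?_
  · rw [hsd]; exact hG2 j
  · rw [hsd]; exact hG3 q.1.1 q hq rfl
  · refine acted_false he hA (by rw [hAe]) hp ?_
    rw [hρ, res_length]

end Pool.Agent.H651.RN
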