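import Pool.Agent.H651.RN.Fin

/-!
# Countable closed covers of the space of solutions
-/

set_option autoImplicit false

namespace Pool.Agent.H651.RN

open Encodable Denumerable
open Nat.Partrec (Code)

/-- the infinite subsets of the sides `j` of the paths of the class -/
def Sp (B : List Bool → Prop) (j : Bool) (H : ℕ → Bool) : Prop :=
  {x | H x = true}.Infinite ∧ ∃ f, Cl B f ∧ ∀ x, H x = true → f x = j

lemma res_eq_iff {H H' : ℕ → Bool} {m : ℕ} : res H m = res H' m ↔ ∀ x < m, H x = H' x := by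
  constructor
  · intro h x hx
    rw [← res_getD H hx, h, res_getD _ hx]
  · intro h
    exact eq_of_getD (n := m) (by simp) (by simp) fun x hx => by
      rw [res_getD _ hx, res_getD _ hx, h x hx]

lemma open_nbhd {U : Set (ℕ → Bool)} (hU : IsOpen U) {H : ℕ → Bool} (hH : H ∈ U) :
    ∃ m, ∀ H', res H' m = res H m → H' ∈ U := by
  obtain ⟨I, u, hu, hsub⟩ := isOpen_pi_iff.1 hU H hH
  refine ⟨I.sup id + 1, fun H' h' => hsub fun i hi => ?_⟩
  have hi' : i < I.sup id + 1 := Nat.lt_succ_of_le (Finset.le_sup (f := id) hi)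
  rw [res_eq_iff] at h'
  rw [h' i hi']
  exact (hu i hi).2

/-- Baire's theorem for the infinite subsets of the sides -/
lemma baire {B : List Bool → Prop} {j : Bool} {S : ℕ → Set (ℕ → Bool)}
    (hS : ∀ n, IsClosed (S n)) (hcov : ∀ H, Sp B j H → ∃ n, H ∈ S n) (hne : ∃ H, Sp B j H) :
    ∃ (n : ℕ) (G : List Bool), (∃ H, Sp B j H ∧ res H G.length = G) ∧
      ∀ H, Sp B j H → res H G.length = G → H ∈ S n := by
  classical
  by_contra hcon
  simp only [not_exists, not_and, not_forall] at hcon
  -- one step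
  have hstep : ∀ (n : ℕ) (G : List Bool), ∃ G' : List Bool,
      (∃ H, Sp B j H ∧ res H G.length = G) →
        (∃ H, Sp B j H ∧ res H G'.length = G') ∧ G <+: G' ∧
        (∃ x, G.length ≤ x ∧ G'.getD x false = true) ∧
        ∀ H, res H G'.length = G' → H ∉ S n := by
    intro n G
    by_cases hG : ∃ H, Sp B j H ∧ res H G.length = G
    · obtain ⟨H0, hH0, hG0⟩ := hG
      obtain ⟨H, hH, hHG, hHS⟩ := hcon n G ⟨H0, hH0, hG0⟩
      obtain ⟨m, hm⟩ := open_nbhd (hS n).isOpen_compl (H := H) hHS
      obtain ⟨x, hx, hxG⟩ := hH.1.exists_gt G.length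
      refine ⟨res H (max m (x + 1)), fun _ => ⟨⟨H, hH, by rw [res_length]⟩, ?_,
        ⟨x, hxG.le, ?_⟩, ?_⟩⟩
      · rw [← hHG]; exact res_prefix H (by omega)
      · rw [res_getD _ (by omega)]; exact hx
      · intro H' hH'
        rw [res_length] at hH'
        refine hm H' ?_
        rw [res_eq_iff] at hH' ⊢
        exact fun y hy => hH' y (by omega)
    · exact ⟨[], fun h => absurd h hG⟩
  choose st hst using hstep
  let Gs : ℕ → List Bool := fun n => Nat.rec (motive := fun _ => List Bool) [] (fun n G => st n G) n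
  have hGs : ∀ n, Gs (n + 1) = st n (Gs n) := fun n => rfl
  have hex : ∀ n, ∃ H, Sp B j H ∧ res H (Gs n).length = Gs n := by
    intro n
    induction n with
    | zero =>
      obtain ⟨H, hH⟩ := hne
      exact ⟨H, hH, rfl⟩
    | succ n ih => rw [hGs]; exact (hst n _ ih).1
  have hpre1 : ∀ n, Gs n <+: Gs (n + 1) := fun n => by rw [hGs]; exact (hst n _ (hex n)).2.1
  have hpre : ∀ m n, m ≤ n → Gs m <+: Gs n := by
    intro m n h
    induction n, h using Nat.le_induction with
    | base => exact List.prefix_refl _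
    | succ n _ ih => exact ih.trans (hpre1 n)
  have hlen : ∀ n, n ≤ (Gs n).length := by
    intro n
    induction n with
    | zero => exact Nat.zero_le _
    | succ n ih =>
      obtain ⟨x, hx1, hx2⟩ := (hst n _ (hex n)).2.2.1
      rw [← hGs] at hx2
      have := lt_of_getD hx2
      omega
  let H : ℕ → Bool := fun x => (Gs (x + 1)).getD x false
  have hHval : ∀ n x, x < (Gs n).length → H x = (Gs n).getD x false := by
    intro n x hx
    show (Gs (x + 1)).getD x false = (Gs n).getD x false
    rcases le_total n (x + 1) with h | h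
    · exact getD_prefix (hpre _ _ h) hx
    · exact (getD_prefix (hpre _ _ h) (hlen (x + 1))).symm
  have hHres : ∀ n, res H (Gs n).length = Gs n := fun n =>
    eq_of_getD (n := (Gs n).length) (by simp) rfl fun x hx => by
      rw [res_getD _ hx, hHval n x hx]
  have hHinf : {x | H x = true}.Infinite := by
    intro hfin
    obtain ⟨M, hM⟩ := hfin.bddAbove
    obtain ⟨x, hx1, hx2⟩ := (hst (M + 1) _ (hex (M + 1))).2.2.1
    rw [← hGs] at hx2
    have h1 : x ≤ M := hM (by
      show H x = true
      rw [hHval (M + 1 + 1) x (lt_of_getD hx2)]; exact hx2)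
    have h2 := hlen (M + 1)
    omega
  have hHSp : Sp B j H := by
    refine ⟨hHinf, ?_⟩
    obtain ⟨f, hf⟩ := konig (S := fun σ => ∃ f n, Cl B f ∧ σ = res f (Gs n).length ∧
      ∀ x, (Gs n).getD x false = true → f x = j) (fun n => by
        obtain ⟨H', ⟨_, f, hf1, hf2⟩, hH'⟩ := hex n
        refine ⟨res f (Gs n).length, ⟨f, n, hf1, rfl, fun x hx => hf2 x ?_⟩, ?_⟩
        · have hxl := lt_of_getD hx
          rw [← hH', res_getD _ hxl] at hx
          exact hx
        · rw [res_length]; exact hlen n)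
    refine ⟨f, fun n hn => ?_, fun x hx => ?_⟩
    · obtain ⟨σ, ⟨f', k, h1, rfl, _⟩, _, h3⟩ := hf n 0
      have h4 := h3.length_le
      simp only [res_length] at h4
      have h5 : res f n = res f' n := by
        rw [← res_take f' h4, take_eq_of_prefix h3 (by simp), List.take_of_length_le (by simp)]
      rw [h5] at hn
      exact h1 n hn
    · obtain ⟨σ, ⟨f', k, h1, rfl, h2⟩, _, h3⟩ := hf (x + 1) 0
      have h4 := h3.length_le
      simp only [res_length] at h4
      have h5 := getD_prefix h3 (x := x) (by rw [res_length]; exact Nat.lt_succ_self x)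
      rw [res_getD _ h4, res_getD _ (Nat.lt_succ_self x)] at h5
      rw [← h5]
      refine h2 x ?_
      rw [← hHval k x h4]
      exact hx
  obtain ⟨n, hn⟩ := hcov H hHSp
  exact (hst n _ (hex n)).2.2.2 H (by rw [← hGs]; exact hHres (n + 1)) hn

/-- one colour -/
lemma local_col {B : List Bool → Prop} (hB : REPred B) (hne : ∃ f, Cl B f) (j : Bool)
    {S : ℕ → Set (ℕ → Bool)} (hS : ∀ n, IsClosed (S n)) (hcov : ∀ H, Sp B j H → ∃ n, H ∈ S n) :
    ∃ (B' : List Bool → Prop) (G : List Bool) (n : ℕ), REPred B' ∧ (∃ f, Cl B' f) ∧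
      (∀ f, Cl B' f → Cl B f) ∧ (∀ f, Cl B' f → SubF j G f) ∧
      ∀ f H, Cl B' f → {x | H x = true}.Infinite → (∀ x, H x = true → f x = j) →
        res H G.length = G → H ∈ S n := by
  by_cases hsp : ∃ H, Sp B j H
  · obtain ⟨n, G, ⟨H, ⟨_, f, hf1, hf2⟩, hHG⟩, h2⟩ := baire hS hcov hsp
    have key : ∀ f, Cl (fun σ => B σ ∨ ∃ x < σ.length, G.getD x false = true ∧
        σ.getD x false ≠ j) f ↔ Cl B f ∧ SubF j G f := by
      intro f
      constructor
      · intro h
        refine ⟨fun n hn => h n (Or.inl hn), fun x hx => ?_⟩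
        by_contra hne
        refine h (x + 1) (Or.inr ⟨x, by simp, hx, ?_⟩)
        rw [res_getD _ (Nat.lt_succ_self x)]
        exact hne
      · rintro ⟨h1, h2⟩ n (hn | ⟨x, hx, h3, h4⟩)
        · exact h1 n hn
        · rw [res_length] at hx
          rw [res_getD _ hx] at h4
          exact h4 (h2 x h3)
    refine ⟨_, G, n, re_or hB (PrimrecPred.computablePred ?_).to_re, ⟨f, (key f).2 ⟨hf1, ?_⟩⟩,
      fun f hf => ((key f).1 hf).1, fun f hf => ((key f).1 hf).2, ?_⟩
    · refine pp_exLt Primrec.list_length (PrimrecPred.and ?_ (PrimrecPred.not ?_))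
      · exact Primrec.eq.comp ((Primrec.list_getD false).comp (Primrec.const G) Primrec.snd)
          (Primrec.const true)
      · exact Primrec.eq.comp ((Primrec.list_getD false).comp Primrec.fst Primrec.snd)
          (Primrec.const _)
    · intro x hx
      refine hf2 x ?_
      have hxl := lt_of_getD hx
      rw [← hHG, res_getD _ hxl] at hx
      exact hx
    · intro f' H' hf' hH'inf hH' hH'G
      exact h2 H' ⟨hH'inf, f', ((key f').1 hf').1, hH'⟩ hH'G
  · refine ⟨B, [], 0, hB, hne, fun f hf => hf, fun f hf x hx => by simp at hx, ?_⟩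
    intro f H hf hinf hH _
    exact absurd ⟨H, hinf, f, hf, hH⟩ hsp

/-- **Main theorem**, for covers. -/
theorem main2 {X : List Bool → Prop} (hX : ComputablePred X)
    (hpre : ∀ σ τ : List Bool, σ <+: τ → X τ → X σ) (hinf : {σ | X σ}.Infinite)
    {S : ℕ → Set (Bool × (ℕ → Bool))} (hS : ∀ n, IsClosed (S n)) {N : ℕ → ℕ}
    {R : ∀ n, Fin (N n) → Bool × List Bool × ℕ → Prop} (hR : ∀ n i, REPred (R n i))
    (hcov : ∀ c (H : ℕ → Bool), {i | H i = true}.Infinite →
      {σ : List Bool | X σ ∧ ∀ i, H i = true → ∀ b : Bool, σ[i]? = some b → b = c}.Infinite →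
      ∃ n, (c, H) ∈ S n)
    (hsol : ∀ n c (H : ℕ → Bool), {i | H i = true}.Infinite →
      {σ : List Bool | X σ ∧ ∀ i, H i = true → ∀ b : Bool, σ[i]? = some b → b = c}.Infinite →
      (c, H) ∈ S n → ∀ l, ∃ i, (enum (R n i) c H).Infinite ∧ HomY (enum (R n i) c H) (YT l)) :
    False := by
  classical
  have hX0 : ∀ f, Cl (fun σ => ¬ X σ) f → Path X f := fun f hf n => not_not.1 (hf n)
  have hne0 : ∃ f, Cl (fun σ => ¬ X σ) f := by
    obtain ⟨f, hf⟩ := konig (exists_long hinf)
    refine ⟨f, fun n hn => hn ?_⟩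
    obtain ⟨σ, h1, _, h3⟩ := hf n 0
    exact hpre _ _ h3 h1
  have hSc : ∀ c n, IsClosed {H : ℕ → Bool | (c, H) ∈ S n} := fun c n =>
    (hS n).preimage (Continuous.prodMk_right c)
  obtain ⟨B1, G0, n0, hB1, hne1, hsub1, hG0, h0⟩ := local_col hX.not.to_re hne0 false
    (fun n => hSc false n) (fun H ⟨h1, f, hf, h2⟩ =>
      hcov false H h1 (sol_of_path (hX0 f hf) h2))
  obtain ⟨B2, G1, n1, hB2, hne2, hsub2, hG1, h1⟩ := local_col hB1 hne1 true
    (fun n => hSc true n) (fun H ⟨h1, f, hf, h2⟩ =>
      hcov true H h1 (sol_of_path (hX0 f (hsub1 f hf)) h2))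
  let G : Bool → List Bool := fun j => if j then G1 else G0
  let nn : Bool → ℕ := fun j => if j then n1 else n0
  have hG : ∀ j f, Cl B2 f → SubF j (G j) f := by
    intro j f hf
    rcases j with _ | _
    · exact hG0 f (hsub2 f hf)
    · exact hG1 f hf
  have hmem : ∀ j f (H : ℕ → Bool), Cl B2 f → {x | H x = true}.Infinite →
      (∀ x, H x = true → f x = j) → res H (G j).length = G j → (j, H) ∈ S (nn j) := by
    intro j f H hf
    rcases j with _ | _
    · exact h0 f H (hsub2 f hf)
    · exact h1 f H hf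
  choose cs hcs' using fun n i => re_code (hR n i)
  have hcs : ∀ n i a, R n i a ↔ ∃ k, (Code.evaln k (cs n i) (enc3 a)).isSome = true := hcs'
  let L : Bool → List Code := fun j => List.ofFn (cs (nn j))
  have hP : PrimrecPred fun p : ((Par × List Bool) × ℕ) × ℕ =>
      (Code.evaln p.2 ((L p.1.1.1.1.1).getD p.1.1.1.2 Code.zero)
        (enc3 (p.1.1.1.1.1, ow (G p.1.1.1.1.1) p.1.1.2, p.1.2))).isSome = true := by
    have hj : Primrec fun p : ((Par × List Bool) × ℕ) × ℕ => p.1.1.1.1.1 :=
      Primrec.fst.comp (Primrec.fst.comp (Primrec.fst.comp (Primrec.fst.comp Primrec.fst)))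
    have h1 : Primrec fun p : ((Par × List Bool) × ℕ) × ℕ =>
        enc3 (p.1.1.1.1.1, ow (G p.1.1.1.1.1) p.1.1.2, p.1.2) :=
      pr_enc3.comp (Primrec.pair hj (Primrec.pair (pr_ow.comp
        ((Primrec.dom_finite G).comp hj) (Primrec.snd.comp (Primrec.fst.comp Primrec.fst)))
        (Primrec.snd.comp Primrec.fst)))
    have h2 : Primrec fun p : ((Par × List Bool) × ℕ) × ℕ =>
        (L p.1.1.1.1.1).getD p.1.1.1.2 Code.zero :=
      (Primrec.list_getD Code.zero).comp ((Primrec.dom_finite L).comp hj)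
        (Primrec.snd.comp (Primrec.fst.comp (Primrec.fst.comp Primrec.fst)))
    exact pp_ev Primrec.snd h2 h1
  refine no_state (B := B2) (R := fun p => ∃ k,
    (Code.evaln k ((L p.1.1.1.1).getD p.1.1.2 Code.zero)
        (enc3 (p.1.1.1.1, ow (G p.1.1.1.1) p.1.2, p.2))).isSome = true)
    (A := ([false, true].product [false, true]).product (List.range (N n0 + N n1)))
    ⟨hB2, re_exists hP, hne2, ?_⟩
  intro f hf j l H hH hHi
  have hH' : ∀ x, owf (G j) H x = true → f x = j := by
    intro x hx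
    by_cases hxl : x < (G j).length
    · simp only [owf, hxl, if_true] at hx
      exact hG j f hf x hx
    · simp only [owf, hxl, if_false] at hx
      exact hH x hx
  have hinf' : {x | owf (G j) H x = true}.Infinite := by
    refine (hHi.sdiff (Set.finite_lt_nat (G j).length)).mono ?_
    rintro x ⟨h1, h2⟩
    show owf _ H x = true
    have h2' : ¬ x < (G j).length := h2
    unfold owf
    rw [if_neg h2']
    exact h1
  have hres : res (owf (G j) H) (G j).length = G j := by
    refine eq_of_getD (n := (G j).length) (by simp) rfl fun x hx => ?_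
    rw [res_getD _ hx]
    simp [owf, hx]
  obtain ⟨i, hi1, hi2⟩ := hsol (nn j) j _ hinf'
    (sol_of_path (hX0 f (hsub1 f (hsub2 f hf))) hH') (hmem j f _ hf hinf' hH' hres) l
  refine ⟨((j, l), i), ?_, rfl, ?_⟩
  · simp only [List.product, List.mem_flatMap, List.mem_map]
    refine ⟨(j, l), ⟨j, ?_, l, ?_, rfl⟩, i, List.mem_range.2 ?_, rfl⟩
    · rcases j with _ | _ <;> simp
    · rcases l with _ | _ <;> simp
    · have h5 := i.2
      have h6 : N (nn j) ≤ N n0 + N n1 := by
        rcases j with _ | _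
        · show N n0 ≤ _; omega
        · show N n1 ≤ _; omega
      omega
  · have : EnumP (fun p => ∃ k, (Code.evaln k ((L p.1.1.1.1).getD p.1.1.2 Code.zero)
        (enc3 (p.1.1.1.1, ow (G p.1.1.1.1) p.1.2, p.2))).isSome = true) ((j, l), (i : ℕ)) H =
        enum (R (nn j) i) j (owf (G j) H) := by
      ext y
      show (∃ n, ∃ k, (Code.evaln k ((L j).getD (i : ℕ) Code.zero)
        (enc3 (j, ow (G j) (res H n), y))).isSome = true) ↔
          ∃ n, R (nn j) i (j, res (owf (G j) H) n, y)
      have h3 : (L j).getD (i : ℕ) Code.zero = cs (nn j) i := by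
        show (List.ofFn (cs (nn j))).getD (i : ℕ) Code.zero = _
        rw [List.getD_eq_getElem _ _ (by simp)]
        simp
      rw [h3]
      simp only [ow_res]
      exact exists_congr fun n => (hcs _ i _).symm
    rw [this]
    exact ⟨hi1, hi2⟩

end Pool.Agent.H651.RN
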