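import Pool.Agent.H651.RN.Prim

/-!
# The priority construction: combinatorics
-/

set_option autoImplicit false

namespace Pool.Agent.H651.RN

open Encodable Denumerable
open Nat.Partrec (Code)

/-- the first `n` values of `f` -/
def res (f : ℕ → Bool) (n : ℕ) : List Bool := (List.range n).map f

@[simp] lemma res_length (f : ℕ → Bool) (n : ℕ) : (res f n).length = n := by simp [res]

lemma res_getD (f : ℕ → Bool) {n x : ℕ} (h : x < n) : (res f n).getD x false = f x := by
  simp [res, List.getD, h]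

lemma res_take (f : ℕ → Bool) {m n : ℕ} (h : m ≤ n) : (res f n).take m = res f m := by
  apply List.ext_getElem
  · simp [h]
  · intro i h1 h2; simp [res]

lemma res_prefix (f : ℕ → Bool) {m n : ℕ} (h : m ≤ n) : res f m <+: res f n := by
  rw [← res_take f h]; exact List.take_prefix _ _

lemma res_mem (f : ℕ → Bool) (n : ℕ) : res f n ∈ strs n := mem_strs.2 (by simp)

lemma eq_of_getD {n : ℕ} {σ τ : List Bool} (hσ : σ.length = n) (hτ : τ.length = n)
    (h : ∀ x < n, σ.getD x false = τ.getD x false) : σ = τ := by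
  apply List.ext_getElem (by rw [hσ, hτ])
  intro i h1 h2
  have := h i (by omega)
  rwa [List.getD_eq_getElem _ _ h1, List.getD_eq_getElem _ _ h2] at this

lemma getD_prefix {σ τ : List Bool} (h : σ <+: τ) {x : ℕ} (hx : x < σ.length) :
    τ.getD x false = σ.getD x false := by
  obtain ⟨ρ, rfl⟩ := h
  exact List.getD_append _ _ _ _ hx

lemma take_eq_of_prefix {σ τ : List Bool} (h : σ <+: τ) {t : ℕ} (ht : t ≤ σ.length) :
    τ.take t = σ.take t := by
  obtain ⟨ρ, rfl⟩ := h
  exact List.take_append_of_le_length ht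

lemma Out_mono {e : ℕ} {q : Par} {σ τ : List Bool} {y : ℕ} (h : σ <+: τ)
    (ho : Out e q σ y) : Out e q τ y := by
  obtain ⟨t, ht, h1⟩ := ho
  have hl := h.length_le
  refine ⟨t, by omega, ?_⟩
  rw [take_eq_of_prefix h (by omega)]
  obtain ⟨v, hv⟩ := Option.isSome_iff_exists.1 h1
  have := Code.evaln_mono hl (Option.mem_def.2 hv)
  rw [Option.mem_def] at this
  rw [this]; rfl

/-- the action occurs -/
def IsAct (A : Act) : Prop := A ∈ hist (A.2 + 1)

lemma hist_succ_cases (s : ℕ) : hist (s + 1) = hist s ∨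
    ∃ c ∈ cand s, PP (hist s) s c ∧ hist (s + 1) = (c, s) :: hist s := by
  classical
  show step s (hist s) = _ ∨ ∃ c ∈ cand s, _ ∧ step s (hist s) = _
  rw [step]
  generalize hi : (cand s).findIdx _ = i
  rcases hc : (cand s)[i]? with _ | c
  · left; rfl
  · right
    obtain ⟨h1, h2⟩ := List.getElem?_eq_some_iff.1 hc
    refine ⟨c, h2 ▸ List.getElem_mem h1, ?_, rfl⟩
    subst hi
    have := List.findIdx_getElem (w := h1)
    rw [h2] at this
    exact of_decide_eq_true this

lemma act_exists {s : ℕ} {c : Cand} (hc : c ∈ cand s) (hP : P0 (hist s) s c) :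
    ∃ c' : Cand, (c', s) ∈ hist (s + 1) ∧ c'.1.1 ≤ c.1.1 := by
  classical
  obtain ⟨c1, ⟨h1, h1'⟩, h2⟩ : ∃ c1, (c1 ∈ cand s ∧ P0 (hist s) s c1) ∧
      ∀ c2, (c2 ∈ cand s ∧ P0 (hist s) s c2) → c1.1.1 ≤ c2.1.1 := by
    have hne : ∃ n, ∃ c1, (c1 ∈ cand s ∧ P0 (hist s) s c1) ∧ c1.1.1 = n :=
      ⟨_, c, ⟨hc, hP⟩, rfl⟩
    obtain ⟨c1, h1, h2⟩ := Nat.find_spec hne
    refine ⟨c1, h1, fun c2 h3 => ?_⟩
    rw [h2]
    exact Nat.find_min' hne ⟨c2, h3, rfl⟩
  have hPP : PP (hist s) s c1 := ⟨h1', fun c' hc' hlt hp => by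
    have := h2 c' ⟨hc', hp⟩; omega⟩
  have h3 : (cand s).findIdx (fun c => decide (PP (hist s) s c)) < (cand s).length :=
    List.findIdx_lt_length_of_exists ⟨c1, h1, decide_eq_true hPP⟩
  have h4 := List.findIdx_getElem (w := h3)
  have h5 : step s (hist s) =
      ((cand s)[(cand s).findIdx (fun c => decide (PP (hist s) s c))], s) :: hist s := by
    rw [step, List.getElem?_eq_getElem h3]
  have h6 : PP (hist s) s
    ((cand s)[(cand s).findIdx (fun c => decide (PP (hist s) s c))]) := of_decide_eq_true h4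
  refine ⟨(cand s)[(cand s).findIdx (fun c => decide (PP (hist s) s c))], ?_, ?_⟩
  · show _ ∈ step s (hist s)
    rw [h5]; exact List.mem_cons_self
  · by_contra hlt
    exact h6.2 c1 h1 (by have := h2 c ⟨hc, hP⟩; omega) h1'

lemma mem_hist_act {A : Act} {s : ℕ} (h : A ∈ hist s) : A.2 < s ∧ A.1 ∈ cand A.2 ∧
    PP (hist A.2) A.2 A.1 ∧ hist (A.2 + 1) = A :: hist A.2 := by
  induction s with
  | zero => simp [hist] at h
  | succ s ih =>
    rcases hist_succ_cases s with h1 | ⟨c, hc, h1, h2⟩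
    · rw [h1] at h
      obtain ⟨h3, h4⟩ := ih h
      exact ⟨by omega, h4⟩
    · rw [h2, List.mem_cons] at h
      rcases h with rfl | h
      · exact ⟨Nat.lt_succ_self _, hc, h1, h2⟩
      · obtain ⟨h3, h4⟩ := ih h
        exact ⟨by omega, h4⟩

lemma hist_mono {s t : ℕ} (h : s ≤ t) {A : Act} (hA : A ∈ hist s) : A ∈ hist t := by
  induction t, h using Nat.le_induction with
  | base => exact hA
  | succ t _ ih =>
    rcases hist_succ_cases t with h1 | ⟨c, _, _, h2⟩
    · rw [h1]; exact ih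
    · rw [h2]; exact List.mem_cons_of_mem _ ih

lemma isAct_of_mem {A : Act} {s : ℕ} (h : A ∈ hist s) : IsAct A := by
  rw [IsAct, (mem_hist_act h).2.2.2]; exact List.mem_cons_self

lemma IsAct.mem {A : Act} (h : IsAct A) {s : ℕ} (hs : A.2 < s) : A ∈ hist s :=
  hist_mono hs h

lemma act_unique {A A' : Act} (h : IsAct A) (h' : IsAct A') (hs : A.2 = A'.2) : A = A' := by
  have h1 := (mem_hist_act h).2.2.2
  have h2 := (mem_hist_act h').2.2.2
  rw [hs] at h1
  rw [h1] at h2
  exact (List.cons.inj h2).1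

lemma restr_le {h h' : List Act} {e b b' : ℕ} (hh : ∀ A : Act, A.1.1.1 < e → A ∈ h → A ∈ h')
    (h1 : IsRestr h e b) (h2 : IsRestr h' e b') : b ≤ b' := by
  rcases h1.1 with rfl | ⟨A, hA, hlt, rfl⟩
  · exact Nat.zero_le _
  · exact h2.2 A (hh A hlt hA) hlt

lemma isU_unique {e b u u' : ℕ} (h : IsU e b u) (h' : IsU e b u') : u = u' := by
  rcases lt_trichotomy u u' with h1 | h1 | h1
  · exact absurd h.1 (h'.2 u h1)
  · exact h1
  · exact absurd h'.1 (h.2 u' h1)

/-- finite injury -/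
lemma fin_inj (e : ℕ) : ∃ s0, ∀ A, IsAct A → A.1.1.1 < e → A.2 < s0 := by
  induction e with
  | zero => exact ⟨0, fun A _ h => absurd h (Nat.not_lt_zero _)⟩
  | succ e ih =>
    obtain ⟨s0, hs0⟩ := ih
    set S : Set Act := {A | IsAct A ∧ A.1.1.1 = e ∧ s0 ≤ A.2} with hS
    have key : ∀ A ∈ S, ∀ A' ∈ S, A.1.1 = A'.1.1 ∧
        A.1.2.1.1.length = A'.1.2.1.1.length := by
      rintro A ⟨hA, hAe, hAs⟩ A' ⟨hA', hAe', hAs'⟩
      have p := (mem_hist_act hA).2.2.1.1
      have p' := (mem_hist_act hA').2.2.1.1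
      have hb : A.1.1.2 = A'.1.1.2 := by
        have r := p.1
        have r' := p'.1
        rw [hAe] at r
        rw [hAe'] at r'
        refine le_antisymm (restr_le ?_ r r') (restr_le ?_ r' r)
        · intro B hB hBm
          exact (isAct_of_mem hBm).mem (lt_of_lt_of_le (hs0 B (isAct_of_mem hBm) hB) hAs')
        · intro B hB hBm
          exact (isAct_of_mem hBm).mem (lt_of_lt_of_le (hs0 B (isAct_of_mem hBm) hB) hAs)
      refine ⟨Prod.ext (hAe.trans hAe'.symm) hb, ?_⟩
      have u1 := p.2.1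
      have u2 := p'.2.1
      rw [hAe, hb] at u1
      rw [hAe'] at u2
      exact isU_unique u1 u2
    have hinj : Set.InjOn (fun A : Act => A.1.2.1) S := by
      have aux : ∀ A ∈ S, ∀ A' ∈ S, A.1.2.1 = A'.1.2.1 → A.2 < A'.2 → False := by
        rintro A hA A' hA' h hlt
        have p' := (mem_hist_act hA'.1).2.2.1.1
        exact p'.2.2.2.1 A (hA.1.mem hlt) (key A hA A' hA').1 h
      intro A hA A' hA' h
      rcases lt_trichotomy A.2 A'.2 with h1 | h1 | h1
      · exact (aux A hA A' hA' h h1).elim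
      · exact act_unique hA.1 hA'.1 h1
      · exact (aux A' hA' A hA h.symm h1).elim
    have hfin : S.Finite := by
      rcases S.eq_empty_or_nonempty with h | ⟨A0, hA0⟩
      · rw [h]; exact Set.finite_empty
      · have hf := List.finite_length_eq Bool A0.1.2.1.1.length
        refine Set.Finite.of_injOn (t := {ρ : List Bool | ρ.length = A0.1.2.1.1.length} ×ˢ
          ({ρ : List Bool | ρ.length = A0.1.2.1.1.length} ×ˢ
            {ρ : List Bool | ρ.length = A0.1.2.1.1.length}))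
          (fun A hA => ?_) hinj (hf.prod (hf.prod hf))
        have h1 := (key A hA A0 hA0).2
        have h2 := (mem_hist_act hA.1).2.2.1.1.2.2.1
        exact ⟨h1, h2.1.trans h1, h2.2.trans h1⟩
    obtain ⟨M, hM⟩ := (hfin.image fun A : Act => A.2).bddAbove
    refine ⟨max s0 (M + 1), fun A hA hlt => ?_⟩
    by_cases h1 : A.1.1.1 < e
    · exact lt_of_lt_of_le (hs0 A hA h1) (le_max_left _ _)
    · by_cases h2 : s0 ≤ A.2
      · have : A.2 ≤ M := hM ⟨A, ⟨hA, by omega, h2⟩, rfl⟩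
        exact lt_of_lt_of_le (Nat.lt_succ_of_le this) (le_max_right _ _)
      · exact lt_of_lt_of_le (not_le.1 h2) (le_max_left _ _)

lemma restr_exists (h : List Act) (e : ℕ) : ∃ b, IsRestr h e b := by
  induction h with
  | nil => exact ⟨0, Or.inl rfl, by simp⟩
  | cons A h ih =>
    obtain ⟨b, hb1, hb2⟩ := ih
    by_cases hA : A.1.1.1 < e
    · by_cases hle : b ≤ A.2
      · refine ⟨A.2, Or.inr ⟨A, List.mem_cons_self, hA, rfl⟩, ?_⟩
        intro B hB hlt
        rcases List.mem_cons.1 hB with rfl | hB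
        · exact le_rfl
        · exact (hb2 B hB hlt).trans hle
      · refine ⟨b, ?_, ?_⟩
        · rcases hb1 with rfl | ⟨B, hB, h1, h2⟩
          · exact Or.inl rfl
          · exact Or.inr ⟨B, List.mem_cons_of_mem _ hB, h1, h2⟩
        · intro B hB hlt
          rcases List.mem_cons.1 hB with rfl | hB
          · omega
          · exact hb2 B hB hlt
    · refine ⟨b, ?_, ?_⟩
      · rcases hb1 with rfl | ⟨B, hB, h1, h2⟩
        · exact Or.inl rfl
        · exact Or.inr ⟨B, List.mem_cons_of_mem _ hB, h1, h2⟩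
      · intro B hB hlt
        rcases List.mem_cons.1 hB with rfl | hB
        · exact absurd hlt hA
        · exact hb2 B hB hlt

lemma final_restr (e : ℕ) : ∃ b s0, ∀ s, s0 ≤ s → IsRestr (hist s) e b := by
  obtain ⟨s0, hs0⟩ := fin_inj e
  obtain ⟨b, hb1, hb2⟩ := restr_exists (hist s0) e
  refine ⟨b, s0, fun s hs => ⟨?_, ?_⟩⟩
  · rcases hb1 with rfl | ⟨B, hB, h1, h2⟩
    · exact Or.inl rfl
    · exact Or.inr ⟨B, hist_mono hs hB, h1, h2⟩
  · intro A hA hlt
    exact hb2 A ((isAct_of_mem hA).mem (hs0 A (isAct_of_mem hA) hlt)) hlt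

lemma Resp_congr {l : Bool} {A : Act} {g g' : List Bool}
    (h : ∀ x < A.2, g.getD x false = g'.getD x false) (hr : Resp l A g) : Resp l A g' := by
  obtain ⟨c, hc⟩ := hr
  exact ⟨c, fun x hx hb => by rw [← h x hx]; exact hc x hx hb⟩

lemma valid (s : ℕ) : ∃ γ : Bool → List Bool, ∀ l, ∀ A ∈ hist s, Resp l A (γ l) := by
  induction s with
  | zero => exact ⟨fun _ => [], by simp [hist]⟩
  | succ s ih =>
    rcases hist_succ_cases s with h1 | ⟨c, hc, h1, h2⟩
    · rw [h1]; exact ih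
    · refine ⟨fun l => gam l (c, s), fun l A hA => ?_⟩
      rw [h2] at hA
      rcases List.mem_cons.1 hA with rfl | hA
      · exact ⟨false, fun x _ _ => by simp⟩
      · exact h1.1.2.2.2.2.1 A hA l

lemma YT_prefix {l : Bool} {σ τ : List Bool} (h : σ <+: τ) (hτ : YT l τ) : YT l σ := by
  intro A hA
  refine Resp_congr (fun x hx => ?_) (hτ A (hist_mono h.length_le hA))
  exact getD_prefix h (lt_trans hx (mem_hist_act hA).1)

lemma YT_exists (l : Bool) (n : ℕ) : ∃ τ : List Bool, YT l τ ∧ n ≤ τ.length := by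
  obtain ⟨γ, hγ⟩ := valid n
  refine ⟨res (fun x => (γ l).getD x false) n, fun A hA => ?_, by simp⟩
  rw [res_length] at hA
  refine Resp_congr (fun x hx => ?_) (hγ l A hA)
  rw [res_getD _ (lt_trans hx (mem_hist_act hA).1)]

/-- König's lemma -/
lemma konig {S : List Bool → Prop} (h : ∀ n, ∃ σ, S σ ∧ n ≤ σ.length) :
    ∃ f : ℕ → Bool, ∀ n m, ∃ σ, S σ ∧ m ≤ σ.length ∧ res f n <+: σ := by
  classical
  let Ext : List Bool → Prop := fun τ => ∀ m, ∃ σ, S σ ∧ m ≤ σ.length ∧ τ <+: σ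
  let sq : ℕ → List Bool := fun n => Nat.rec (motive := fun _ => List Bool) []
    (fun _ τ => τ ++ [decide (Ext (τ ++ [true]))]) n
  have h0 : Ext [] := fun m => by
    obtain ⟨σ, h1, h2⟩ := h m
    exact ⟨σ, h1, h2, List.nil_prefix⟩
  have h1 : ∀ τ, Ext τ → Ext (τ ++ [decide (Ext (τ ++ [true]))]) := by
    intro τ hτ
    by_cases ht : Ext (τ ++ [true])
    · rw [decide_eq_true ht]; exact ht
    · rw [decide_eq_false ht]
      by_contra hf
      simp only [Ext, not_forall] at ht hf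
      obtain ⟨m0, hm0⟩ := ht
      obtain ⟨m1, hm1⟩ := hf
      obtain ⟨σ, hσ1, hσ2, ρ, rfl⟩ := hτ (max (max m0 m1) (τ.length + 1))
      rcases ρ with _ | ⟨b, ρ⟩
      · simp at hσ2
      · rcases b with _ | _
        · exact hm1 ⟨_, hσ1, le_trans (le_trans (le_max_right _ _) (le_max_left _ _)) hσ2,
            ρ, by simp⟩
        · exact hm0 ⟨_, hσ1, le_trans (le_trans (le_max_left _ _) (le_max_left _ _)) hσ2,
            ρ, by simp⟩
  have h2 : ∀ n, Ext (sq n) := by
    intro n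
    induction n with
    | zero => exact h0
    | succ n ih => exact h1 _ ih
  refine ⟨fun n => decide (Ext (sq n ++ [true])), fun n m => ?_⟩
  have h3 : ∀ n, sq n = res (fun n => decide (Ext (sq n ++ [true]))) n := by
    intro n
    induction n with
    | zero => rfl
    | succ n ih =>
      have : sq (n + 1) = sq n ++ [decide (Ext (sq n ++ [true]))] := rfl
      rw [this, res, List.range_succ, List.map_append]
      nth_rewrite 1 [ih]
      rfl
  rw [← h3]
  exact h2 n m

/-- there are arbitrarily large numbers which no action crosses -/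
lemma cut (t0 : ℕ) : ∃ t, t0 ≤ t ∧ ∀ A, IsAct A → A.2 ≤ t ∨ t ≤ A.1.1.2 := by
  classical
  by_cases h : ∃ A, IsAct A ∧ t0 ≤ A.2
  · obtain ⟨A0, hA0, hA1⟩ := h
    obtain ⟨s1, hs1⟩ := fin_inj (A0.1.1.1 + 1)
    let P : ℕ → Prop := fun t => ∃ A, IsAct A ∧ A.1.1.1 < A0.1.1.1 + 1 ∧ A.2 = t
    have hP0 : P A0.2 := ⟨A0, hA0, Nat.lt_succ_self _, rfl⟩
    have hle0 : A0.2 ≤ s1 := (hs1 A0 hA0 (Nat.lt_succ_self _)).le
    obtain ⟨A1, hA1a, hA1b, hA1c⟩ := Nat.findGreatest_spec hle0 hP0
    refine ⟨Nat.findGreatest P s1, hA1.trans (Nat.le_findGreatest hle0 hP0), fun A hA => ?_⟩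
    by_cases h1 : A.1.1.1 < A0.1.1.1 + 1
    · exact Or.inl (Nat.le_findGreatest (hs1 A hA h1).le ⟨A, hA, h1, rfl⟩)
    · by_cases h2 : A.2 ≤ Nat.findGreatest P s1
      · exact Or.inl h2
      · right
        rw [← hA1c]
        rw [← hA1c] at h2
        exact (mem_hist_act hA).2.2.1.1.1.2 A1 (hA1a.mem (by omega)) (by omega)
  · refine ⟨t0, le_rfl, fun A hA => Or.inl ?_⟩
    by_contra h1
    exact h ⟨A, hA, by omega⟩

end Pool.Agent.H651.RN
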