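import Pool.Agent.H651.RN.Ana

/-!
# Two computable instances without a common bound under finitely nonuniform reductions
-/

set_option autoImplicit false

namespace Pool.Agent.H651.RN

open Encodable Denumerable
open Nat.Partrec (Code)

/-- the set enumerated by `R` from `H`, for the parameter `q` -/
def EnumP (R : (Par × List Bool) × ℕ → Prop) (q : Par) (H : ℕ → Bool) : Set ℕ :=
  {y | ∃ n, R ((q, res H n), y)}

/-- `G` is a solution of the tree number `l` -/
def Sol (l : Bool) (G : Set ℕ) : Prop := G.Infinite ∧ HomY G (YT l)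

/-- no initial segment of `f` is bad -/
def Cl (B : List Bool → Prop) (f : ℕ → Bool) : Prop := ∀ n, ¬ B (res f n)

section re

variable {α : Type} [Primcodable α]

lemma re_code {P : α → Prop} (h : REPred P) :
    ∃ c : Code, ∀ a, P a ↔ ∃ k, (Code.evaln k c (encode a)).isSome = true := by
  obtain ⟨c, hc⟩ := Code.exists_code.1 h
  refine ⟨c, fun a => ?_⟩
  have h1 : (Code.eval c (encode a)).Dom ↔ P a := by
    rw [hc]
    simp [Part.assert]
  rw [← h1]
  constructor
  · intro hd
    obtain ⟨k, hk⟩ := Code.evaln_complete.1 (Part.get_mem hd)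
    exact ⟨k, by rw [Option.mem_def.1 hk]; rfl⟩
  · rintro ⟨k, hk⟩
    obtain ⟨v, hv⟩ := Option.isSome_iff_exists.1 hk
    have := Code.evaln_sound (Option.mem_def.2 hv)
    exact Part.dom_iff_mem.2 ⟨v, this⟩

lemma isSome_mono {k k' n : ℕ} {c : Code} (h : k ≤ k') (h1 : (Code.evaln k c n).isSome = true) :
    (Code.evaln k' c n).isSome = true := by
  obtain ⟨v, hv⟩ := Option.isSome_iff_exists.1 h1
  have := Code.evaln_mono h (Option.mem_def.2 hv)
  rw [Option.mem_def.1 this]; rfl

lemma re_exists {P : α × ℕ → Prop} (h : PrimrecPred P) : REPred fun a => ∃ n, P (a, n) := by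
  classical
  have h1 : Partrec fun a : α => Nat.rfind fun n => Part.some (decide (P (a, n))) := by
    refine Partrec.rfind ?_
    exact (h.computablePred.decide.partrec)
  refine h1.dom_re.of_eq fun a => ?_
  rw [Nat.rfind_dom]
  simp

lemma pp_evaln (c : Code) : PrimrecPred fun p : α × ℕ =>
    (Code.evaln p.2 c (encode p.1)).isSome = true :=
  pp_ev Primrec.snd (Primrec.const c) (Primrec.encode.comp Primrec.fst)

lemma re_or {P Q : α → Prop} (hP : REPred P) (hQ : REPred Q) : REPred fun a => P a ∨ Q a := by
  obtain ⟨c, hc⟩ := re_code hP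
  obtain ⟨d, hd⟩ := re_code hQ
  refine (re_exists ((pp_evaln (α := α) c).or (pp_evaln d))).of_eq fun a => ?_
  rw [hc, hd, exists_or]

end re

/-- a state: a nonempty class of paths, operators, and a list of parameters such that for each
infinite subset of a side one of the operators in the list gives a solution -/
structure State (B : List Bool → Prop) (R : (Par × List Bool) × ℕ → Prop) (A : List Par) :
    Prop where
  reB : REPred B
  reR : REPred R
  ne : ∃ f, Cl B f
  nr : ∀ f, Cl B f → ∀ (j l : Bool) (H : ℕ → Bool), (∀ x, H x = true → f x = j) →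
    {x | H x = true}.Infinite → ∃ q ∈ A, q.1 = (j, l) ∧ Sol l (EnumP R q H)

/-- overwriting the beginning of a string -/
def ow (G σ : List Bool) : List Bool :=
  (List.range σ.length).map fun x => if x < G.length then G.getD x false else σ.getD x false

/-- overwriting the beginning of a set -/
def owf (G : List Bool) (H : ℕ → Bool) (x : ℕ) : Bool :=
  if x < G.length then G.getD x false else H x

lemma ow_res (G : List Bool) (H : ℕ → Bool) (n : ℕ) : ow G (res H n) = res (owf G H) n := by
  refine eq_of_getD (n := n) (by simp [ow]) (by simp) fun x hx => ?_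
  rw [res_getD _ hx]
  have h1 : (ow G (res H n)).getD x false =
      if x < G.length then G.getD x false else (res H n).getD x false := by
    simp [ow, List.getD, hx]
  rw [h1, res_getD _ hx]
  rfl

lemma pr_ow : Primrec₂ ow := by
  refine Primrec.list_map (Primrec.list_range.comp (Primrec.list_length.comp Primrec.snd)) ?_
  refine Primrec.ite (Primrec.nat_lt.comp Primrec.snd
    (Primrec.list_length.comp (Primrec.fst.comp Primrec.fst))) ?_ ?_
  · exact (Primrec.list_getD false).comp (Primrec.fst.comp Primrec.fst) Primrec.snd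
  · exact (Primrec.list_getD false).comp (Primrec.snd.comp Primrec.fst) Primrec.snd

/-- if a parameter can be made useless then there is a smaller state -/
lemma ext {B : List Bool → Prop} {R : (Par × List Bool) × ℕ → Prop} {A : List Par}
    (hS : State B R A) {G : List Bool} {Q : List Bool → Prop} (hQ : REPred Q)
    {f : ℕ → Bool} (hf : Cl B f) {q : Par} (hG : SubF q.1.1 G f) (hfQ : Cl Q f) (hq : q ∈ A)
    (hkill : ∀ f', Cl B f' → SubF q.1.1 G f' → Cl Q f' → ∀ H : ℕ → Bool,
      (∀ x, H x = true → f' x = q.1.1) → {x | H x = true}.Infinite → res H G.length = G →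
        ¬ Sol q.1.2 (EnumP R q H)) :
    ∃ B' R' A', State B' R' A' ∧ A'.length < A.length := by
  classical
  refine ⟨fun σ => (B σ ∨ Q σ) ∨ ∃ x < σ.length, G.getD x false = true ∧
      σ.getD x false ≠ q.1.1,
    fun p => R ((p.1.1, ow (if p.1.1.1.1 = q.1.1 then G else []) p.1.2), p.2),
    A.filter (· ≠ q), ⟨?_, ?_, ?_, ?_⟩, ?_⟩
  · refine re_or (re_or hS.reB hQ) (PrimrecPred.computablePred ?_).to_re
    refine pp_exLt Primrec.list_length (PrimrecPred.and ?_ (PrimrecPred.not ?_))
    · exact Primrec.eq.comp ((Primrec.list_getD false).comp (Primrec.const G) Primrec.snd)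
        (Primrec.const true)
    · exact Primrec.eq.comp ((Primrec.list_getD false).comp Primrec.fst Primrec.snd)
        (Primrec.const _)
  · have h1 : Primrec fun p : (Par × List Bool) × ℕ =>
        ((p.1.1, ow (if p.1.1.1.1 = q.1.1 then G else []) p.1.2), p.2) := by
      refine Primrec.pair (Primrec.pair (Primrec.fst.comp Primrec.fst) (pr_ow.comp
        (Primrec.ite (Primrec.eq.comp (Primrec.fst.comp (Primrec.fst.comp
          (Primrec.fst.comp Primrec.fst))) (Primrec.const _)) (Primrec.const G)
          (Primrec.const [])) (Primrec.snd.comp Primrec.fst))) Primrec.snd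
    exact Partrec.comp hS.reR h1.to_comp
  · refine ⟨f, fun n => ?_⟩
    rintro ((h | h) | ⟨x, hx, h1, h2⟩)
    · exact hf n h
    · exact hfQ n h
    · rw [res_length] at hx
      rw [res_getD _ hx] at h2
      exact h2 (hG x h1)
  · intro f' hf' j l H hH hinf
    have hB : Cl B f' := fun n h => hf' n (Or.inl (Or.inl h))
    have hQ' : Cl Q f' := fun n h => hf' n (Or.inl (Or.inr h))
    have hG' : SubF q.1.1 G f' := by
      intro x hx
      by_contra hne
      refine hf' (x + 1) (Or.inr ⟨x, by simp, hx, ?_⟩)
      rw [res_getD _ (Nat.lt_succ_self x)]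
      exact hne
    have hH' : ∀ x, owf (if j = q.1.1 then G else []) H x = true → f' x = j := by
      intro x hx
      by_cases hj : j = q.1.1
      · rw [if_pos hj] at hx
        by_cases hxl : x < G.length
        · simp only [owf, hxl, if_true] at hx
          rw [hj]; exact hG' x hx
        · simp only [owf, hxl, if_false] at hx
          exact hH x hx
      · rw [if_neg hj] at hx
        exact hH x (by simpa [owf] using hx)
    have hinf' : {x | owf (if j = q.1.1 then G else []) H x = true}.Infinite := by
      refine (hinf.sdiff (Set.finite_lt_nat (if j = q.1.1 then G else []).length)).mono ?_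
      rintro x ⟨h1, h2⟩
      show owf _ H x = true
      have h2' : ¬ x < (if j = q.1.1 then G else []).length := h2
      unfold owf
      rw [if_neg h2']
      exact h1
    obtain ⟨q', hq', hjl, hsol⟩ := hS.nr f' hB j l _ hH' hinf'
    refine ⟨q', ?_, hjl, ?_⟩
    · rw [List.mem_filter]
      refine ⟨hq', ?_⟩
      rw [decide_eq_true_iff]
      rintro rfl
      have hj : j = q'.1.1 := by rw [hjl]
      have hl : q'.1.2 = l := by rw [hjl]
      rw [if_pos hj] at hsol hH' hinf'
      refine hkill f' hB hG' hQ' _ (fun x hx => (hH' x hx).trans hj) hinf' ?_ (hl ▸ hsol)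
      refine eq_of_getD (n := G.length) (by simp) rfl fun x hx => ?_
      rw [res_getD _ hx]
      simp [owf, hx]
    · have : EnumP (fun p => R ((p.1.1, ow (if p.1.1.1.1 = q.1.1 then G else []) p.1.2), p.2)) q' H
          = EnumP R q' (owf (if j = q.1.1 then G else []) H) := by
        have hj : q'.1.1 = j := by rw [hjl]
        ext y
        show (∃ n, R ((q', ow (if q'.1.1 = q.1.1 then G else []) (res H n)), y)) ↔
          ∃ n, R ((q', res (owf (if j = q.1.1 then G else []) H) n), y)
        simp only [ow_res, hj]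
      rw [this]; exact hsol
  · rw [List.length_filter_lt_length_iff_exists]
    exact ⟨q, hq, by simp⟩

theorem no_state {B : List Bool → Prop} {R : (Par × List Bool) × ℕ → Prop} {A : List Par} :
    ¬ State B R A := by
  classical
  intro hS0
  have hex : ∃ n, ∃ B R A, State B R A ∧ A.length = n := ⟨_, B, R, A, hS0, rfl⟩
  obtain ⟨B, R, A, hS, hA⟩ := Nat.find_spec hex
  have hmin : ∀ B' R' A', State B' R' A' → ¬ A'.length < A.length := by
    intro B' R' A' hS' hlt
    rw [hA] at hlt
    exact Nat.find_min hex hlt ⟨B', R', A', hS', rfl⟩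
  obtain ⟨c1, hc1⟩ := re_code hS.reB
  obtain ⟨c2, hc2'⟩ := re_code hS.reR
  have hc2 : ∀ a, R a ↔ ∃ k, (Code.evaln k c2 (enc a)).isSome = true := hc2'
  have hdec : dec (encode ((c1, (A, c2)) : Idx)) = (c1, (A, c2)) := dec_encode _
  set e := encode ((c1, (A, c2)) : Idx) with he
  have hOut : ∀ q σ y, Out e q σ y ↔ ∃ t < σ.length + 1,
      (Code.evaln σ.length c2 (enc ((q, σ.take t), y))).isSome = true := by
    intro q σ y; unfold Out; rw [hdec]
  have hTT : ∀ σ, TT e σ ↔ ∀ t < σ.length + 1,
      ¬ (Code.evaln σ.length c1 (encode (σ.take t))).isSome = true := by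
    intro σ; unfold TT; rw [hdec]
  have hal : (dec e).2.1 = A := by rw [hdec]
  have hOutR : ∀ q σ y, Out e q σ y → ∃ t, t ≤ σ.length ∧ R ((q, σ.take t), y) := by
    intro q σ y h
    obtain ⟨t, ht, h⟩ := (hOut q σ y).1 h
    exact ⟨t, by omega, (hc2 _).2 ⟨_, h⟩⟩
  have hROut : ∀ (q : Par) (σ : List Bool) (t y : ℕ), t ≤ σ.length → R ((q, σ.take t), y) →
      ∃ k, ∀ τ, σ <+: τ → k ≤ τ.length → Out e q τ y := by
    intro q σ t y ht h
    obtain ⟨k, hk⟩ := (hc2 _).1 h
    refine ⟨k, fun τ hτ hkτ => (hOut q τ y).2 ⟨t, ?_, ?_⟩⟩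
    · have := hτ.length_le; omega
    · rw [take_eq_of_prefix hτ ht]
      exact isSome_mono hkτ hk
  have hPath : ∀ f, Path (TT e) f ↔ Cl B f := by
    intro f
    constructor
    · intro hf n hB
      obtain ⟨k, hk⟩ := (hc1 _).1 hB
      refine (hTT _).1 (hf (max k n)) n (by rw [res_length]; omega) ?_
      rw [res_take _ (le_max_right _ _), res_length]
      exact isSome_mono (le_max_left _ _) hk
    · intro hf n
      refine (hTT _).2 fun t ht hs => ?_
      rw [res_length] at ht hs
      rw [res_take _ (by omega)] at hs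
      exact hf t ((hc1 _).2 ⟨_, hs⟩)
  have hW : ∀ q H, W e q H = EnumP R q H := by
    intro q H
    ext y
    constructor
    · rintro ⟨n, h⟩
      obtain ⟨t, ht, h⟩ := hOutR _ _ _ h
      rw [res_length] at ht
      rw [res_take _ ht] at h
      exact ⟨t, h⟩
    · rintro ⟨n, h⟩
      obtain ⟨k, hk⟩ := hROut q (res H n) n y (by simp) (by rw [res_take _ le_rfl]; exact h)
      exact ⟨max k n, hk _ (res_prefix H (le_max_right _ _)) (by simp)⟩
  refine not_trueIdx e ⟨?_, ?_, ?_, ?_⟩
  · obtain ⟨f, hf⟩ := hS.ne
    exact ⟨f, (hPath f).2 hf⟩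
  · intro f hf q hq G hG b
    rw [hPath] at hf
    rw [hal] at hq
    by_contra hne
    let P : List Bool × ℕ → Prop := fun p => G.length ≤ p.1.length ∧ ∃ G' ∈ strs p.1.length,
      G'.take G.length = G ∧ Sub q.1.1 G' p.1 p.1.length ∧ ∃ y < p.2, b ≤ y ∧
        ∃ t < p.1.length + 1, (Code.evaln p.2 c2 (enc ((q, G'.take t), y))).isSome = true
    have hP : PrimrecPred P := by
      have hlen : Primrec fun p : List Bool × ℕ => p.1.length :=
        Primrec.list_length.comp Primrec.fst
      refine PrimrecPred.and (Primrec.nat_le.comp (Primrec.const _) hlen) ?_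
      refine pp_ex (primrec_strs.comp hlen) ?_
      refine PrimrecPred.and (Primrec.eq.comp (Primrec.list_take.comp (Primrec.const _)
        Primrec.snd) (Primrec.const _)) ?_
      refine PrimrecPred.and (pp_Sub.comp (Primrec.pair (Primrec.pair (Primrec.const _)
        Primrec.snd) (Primrec.pair (Primrec.fst.comp Primrec.fst) (hlen.comp Primrec.fst)))) ?_
      refine pp_exLt (Primrec.snd.comp Primrec.fst) ?_
      refine PrimrecPred.and (Primrec.nat_le.comp (Primrec.const _) Primrec.snd) ?_
      refine pp_exLt (Primrec.succ.comp (hlen.comp (Primrec.fst.comp Primrec.fst))) ?_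
      have h1 : Primrec fun p : (((List Bool × ℕ) × List Bool) × ℕ) × ℕ =>
          enc ((q, p.1.1.2.take p.2), p.1.2) :=
        pr_enc.comp (Primrec.pair (Primrec.pair (Primrec.const q)
          (Primrec.list_take.comp Primrec.snd (Primrec.snd.comp (Primrec.fst.comp Primrec.fst))))
          (Primrec.snd.comp Primrec.fst))
      exact pp_ev (Primrec.snd.comp (Primrec.fst.comp (Primrec.fst.comp Primrec.fst)))
        (Primrec.const c2) h1
    suffices hx : ∃ B' R' A', State B' R' A' ∧ A'.length < A.length by
      obtain ⟨B', R', A', hS', hlt⟩ := hx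
      exact hmin _ _ _ hS' hlt
    refine ext hS (G := G) (Q := fun σ => ∃ k, P (σ, k)) (re_exists hP) hf (q := q) hG ?_ hq ?_
    · rintro n ⟨k, h1, G', hG', hG1, hG2, y, hy, hby, t, ht, hs⟩
      simp only [res_length] at h1 hG' hG2 ht
      rw [mem_strs] at hG'
      have hR : R ((q, G'.take t), y) := (hc2 _).2 ⟨_, hs⟩
      obtain ⟨k', hk'⟩ := hROut q G' t y (by omega) hR
      apply hne
      have hpre : G' <+: G' ++ List.replicate k' false := List.prefix_append _ _
      refine ⟨G' ++ List.replicate k' false, ?_, ?_, y, hby, hk' _ hpre (by simp)⟩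
      · refine List.IsPrefix.trans ?_ hpre
        rw [← hG1]; exact List.take_prefix _ _
      · intro x hx
        have hxl : x < G'.length := by
          by_contra hxl
          rw [List.getD_append_right _ _ _ _ (not_lt.1 hxl)] at hx
          simp [List.getD, List.getElem?_replicate] at hx
          split at hx <;> simp at hx
        rw [List.getD_append _ _ _ _ hxl] at hx
        have := hG2 x (by omega) hx
        rwa [res_getD _ (by omega)] at this
    · intro f' hf' hGf' hQf' H hH hinf hHG hsol
      obtain ⟨y, ⟨n, hn⟩, hy⟩ := hsol.1.exists_gt b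
      obtain ⟨k, hk⟩ := (hc2 _).1 hn
      refine hQf' (max n G.length) ⟨max k (y + 1), ?_, res H (max n G.length), ?_, ?_, ?_,
        y, ?_, hy.le, n, ?_, ?_⟩
      · simp
      · rw [res_length]; exact res_mem _ _
      · rw [res_take _ (le_max_right _ _), hHG]
      · intro x hx hxH
        rw [res_length] at hx
        rw [res_getD _ hx] at hxH ⊢
        exact hH x hxH
      · show y < max k (y + 1); omega
      · rw [res_length]; omega
      · rw [res_take _ (le_max_left _ _)]
        exact isSome_mono (le_max_left _ _) hk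
  · intro f hf q hq G hG s
    rw [hPath] at hf
    rw [hal] at hq
    by_contra hne
    suffices hx : ∃ B' R' A', State B' R' A' ∧ A'.length < A.length by
      obtain ⟨B', R', A', hS', hlt⟩ := hx
      exact hmin _ _ _ hS' hlt
    refine ext hS (G := G) (Q := fun σ : List Bool => σ.length + 1 = 0)
      (PrimrecPred.computablePred (Primrec.eq.comp (Primrec.succ.comp Primrec.list_length)
        (Primrec.const 0))).to_re hf (q := q) hG (fun n h => by simp at h) hq ?_
    · intro f' hf' hGf' _ H hH hinf hHG hsol
      obtain ⟨τ, ⟨hτ, d, hd⟩, hτl⟩ := exists_long hsol.2 s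
      apply hne
      refine ⟨τ, hτ, hτl, ?_⟩
      have key : ∀ y, y < s → Out e q G y → τ.getD y false = d := by
        intro y hy ho
        obtain ⟨t, ht, hR⟩ := hOutR _ _ _ ho
        have hyE : y ∈ EnumP R q H := by
          refine ⟨t, ?_⟩
          rw [← hHG, res_take _ ht] at hR
          exact hR
        rw [List.getD_eq_getElem _ _ (by omega)]
        exact hd y hyE _ (List.getElem?_eq_getElem _)
      intro y z hy hz hoy hoz
      rw [key y hy hoy, key z hz hoz]
  · intro f hf j l H hH hinf
    rw [hPath] at hf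
    obtain ⟨q, hq, hjl, hsol⟩ := hS.nr f hf j l H hH hinf
    rw [hal]
    exact ⟨q, hq, hjl, by rw [hW]; exact hsol.1⟩

/-- a path gives solutions -/
lemma sol_of_path {X : List Bool → Prop} {f H : ℕ → Bool} {c : Bool} (hf : Path X f)
    (hH : ∀ x, H x = true → f x = c) :
    {σ : List Bool | X σ ∧ ∀ i, H i = true → ∀ b : Bool, σ[i]? = some b → b = c}.Infinite := by
  have hinj : Function.Injective (res f) := fun m n h => by
    have := congrArg List.length h
    simpa using this
  refine (Set.infinite_range_of_injective hinj).mono ?_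
  rintro _ ⟨n, rfl⟩
  refine ⟨hf n, fun i hi b hb => ?_⟩
  obtain ⟨h1, h2⟩ := List.getElem?_eq_some_iff.1 hb
  rw [← hH i hi, ← h2]
  simp [res]

lemma YT_infinite (l : Bool) : {σ | YT l σ}.Infinite := by
  intro hfin
  obtain ⟨M, hM⟩ := (hfin.image List.length).bddAbove
  obtain ⟨τ, h1, h2⟩ := YT_exists l (M + 1)
  have : τ.length ≤ M := hM ⟨τ, h1, rfl⟩
  omega

/-- the set enumerated by `R` from `H`, with the additional input `c` -/
def enum (R : Bool × List Bool × ℕ → Prop) (c : Bool) (H : ℕ → Bool) : Set ℕ :=
  {y | ∃ n, R (c, res H n, y)}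

/-- the number of an argument -/
def enc3 (p : Bool × List Bool × ℕ) : ℕ := @encode _ Primcodable.toEncodable p

lemma pr_enc3 : Primrec enc3 := Primrec.encode

/-- **Main theorem.** -/
theorem main {X : List Bool → Prop} (hX : ComputablePred X)
    (hpre : ∀ σ τ : List Bool, σ <+: τ → X τ → X σ) (hinf : {σ | X σ}.Infinite)
    {N : ℕ} (R : Fin N → Bool × List Bool × ℕ → Prop) (hR : ∀ i, REPred (R i)) :
    ∃ (c l : Bool) (H : ℕ → Bool), {i | H i = true}.Infinite ∧
        {σ : List Bool | X σ ∧ ∀ i, H i = true → ∀ b : Bool, σ[i]? = some b → b = c}.Infinite ∧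
        ∀ i, ¬ ((enum (R i) c H).Infinite ∧ HomY (enum (R i) c H) (YT l)) := by
  classical
  by_contra hne
  push Not at hne
  choose cs hcs' using fun i => re_code (hR i)
  have hcs : ∀ i a, R i a ↔ ∃ k, (Code.evaln k (cs i) (enc3 a)).isSome = true := hcs'
  have hP : PrimrecPred fun p : ((Par × List Bool) × ℕ) × ℕ =>
      (Code.evaln p.2 ((List.ofFn cs).getD p.1.1.1.2 Code.zero)
        (enc3 (p.1.1.1.1.1, p.1.1.2, p.1.2))).isSome = true := by
    have h1 : Primrec fun p : ((Par × List Bool) × ℕ) × ℕ =>
        enc3 (p.1.1.1.1.1, p.1.1.2, p.1.2) :=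
      pr_enc3.comp (Primrec.pair (Primrec.fst.comp (Primrec.fst.comp (Primrec.fst.comp
        (Primrec.fst.comp Primrec.fst)))) (Primrec.pair (Primrec.snd.comp (Primrec.fst.comp
        Primrec.fst)) (Primrec.snd.comp Primrec.fst)))
    have h2 : Primrec fun p : ((Par × List Bool) × ℕ) × ℕ =>
        (List.ofFn cs).getD p.1.1.1.2 Code.zero :=
      (Primrec.list_getD Code.zero).comp (Primrec.const _)
        (Primrec.snd.comp (Primrec.fst.comp (Primrec.fst.comp Primrec.fst)))
    exact pp_ev Primrec.snd h2 h1
  refine no_state (B := fun σ => ¬ X σ) (R := fun p => ∃ k,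
    (Code.evaln k ((List.ofFn cs).getD p.1.1.2 Code.zero)
        (enc3 (p.1.1.1.1, p.1.2, p.2))).isSome = true)
    (A := ([false, true].product [false, true]).product (List.range N))
    ⟨hX.not.to_re, re_exists hP, ?_, ?_⟩
  · obtain ⟨f, hf⟩ := konig (exists_long hinf)
    refine ⟨f, fun n hn => hn ?_⟩
    obtain ⟨σ, h1, _, h3⟩ := hf n 0
    exact hpre _ _ h3 h1
  · intro f hf j l H hH hHi
    have hp : Path X f := fun n => not_not.1 (hf n)
    obtain ⟨i, h1, h2⟩ := hne j l H hHi (sol_of_path hp hH)
    refine ⟨((j, l), i), ?_, rfl, ?_⟩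
    · simp only [List.product, List.mem_flatMap, List.mem_map]
      refine ⟨(j, l), ⟨j, ?_, l, ?_, rfl⟩, i, List.mem_range.2 i.2, rfl⟩
      · rcases j with _ | _ <;> simp
      · rcases l with _ | _ <;> simp
    · have : EnumP (fun p => ∃ k, (Code.evaln k ((List.ofFn cs).getD p.1.1.2 Code.zero)
          (enc3 (p.1.1.1.1, p.1.2, p.2))).isSome = true) ((j, l), (i : ℕ)) H =
          enum (R i) j H := by
        ext y
        show (∃ n, ∃ k, (Code.evaln k ((List.ofFn cs).getD (i : ℕ) Code.zero)
          (enc3 (j, res H n, y))).isSome = true) ↔ ∃ n, R i (j, res H n, y)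
        have h3 : (List.ofFn cs).getD (i : ℕ) Code.zero = cs i := by
          rw [List.getD_eq_getElem _ _ (by simp)]
          simp
        rw [h3]
        exact exists_congr fun n => (hcs i _).symm
      rw [this]
      exact ⟨h1, h2⟩

end Pool.Agent.H651.RN
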