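import Mathlib

/-!
# A priority construction of two computable trees against all computable trees: definitions and
computability
-/

set_option autoImplicit false

namespace Pool.Agent.H651.RN

open Encodable Denumerable
open Nat.Partrec (Code)

section comb

variable {α β : Type} [Primcodable α] [Primcodable β]

lemma pp_all {f : α → List β} {R : α → β → Prop} (hf : Primrec f)
    (hR : PrimrecPred fun p : α × β => R p.1 p.2) : PrimrecPred fun a => ∀ b ∈ f a, R a b := by
  have h : PrimrecRel fun (b : β) (a : α) => R a b :=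
    PrimrecPred.comp hR (Primrec.pair Primrec.snd Primrec.fst)
  exact (PrimrecRel.forall_mem_list h).comp hf Primrec.id

lemma pp_ex {f : α → List β} {R : α → β → Prop} (hf : Primrec f)
    (hR : PrimrecPred fun p : α × β => R p.1 p.2) : PrimrecPred fun a => ∃ b ∈ f a, R a b := by
  have h : PrimrecRel fun (b : β) (a : α) => R a b :=
    PrimrecPred.comp hR (Primrec.pair Primrec.snd Primrec.fst)
  exact (PrimrecRel.exists_mem_list h).comp hf Primrec.id

lemma pp_allLt {f : α → ℕ} {R : α → ℕ → Prop} (hf : Primrec f)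
    (hR : PrimrecPred fun p : α × ℕ => R p.1 p.2) : PrimrecPred fun a => ∀ b < f a, R a b :=
  (pp_all (Primrec.list_range.comp hf) hR).of_eq fun a => by simp

lemma pp_exLt {f : α → ℕ} {R : α → ℕ → Prop} (hf : Primrec f)
    (hR : PrimrecPred fun p : α × ℕ => R p.1 p.2) : PrimrecPred fun a => ∃ b < f a, R a b :=
  (pp_ex (Primrec.list_range.comp hf) hR).of_eq fun a => by simp

lemma pp_allB {R : α → Bool → Prop}
    (hR : PrimrecPred fun p : α × Bool => R p.1 p.2) : PrimrecPred fun a => ∀ b, R a b :=
  ((hR.comp (Primrec.pair Primrec.id (Primrec.const false))).and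
    (hR.comp (Primrec.pair Primrec.id (Primrec.const true)))).of_eq fun a => by simp

lemma pp_exB {R : α → Bool → Prop}
    (hR : PrimrecPred fun p : α × Bool => R p.1 p.2) : PrimrecPred fun a => ∃ b, R a b :=
  ((hR.comp (Primrec.pair Primrec.id (Primrec.const false))).or
    (hR.comp (Primrec.pair Primrec.id (Primrec.const true)))).of_eq fun a => by simp

lemma pp_imp {p q : α → Prop} (hp : PrimrecPred p) (hq : PrimrecPred q) :
    PrimrecPred fun a => p a → q a :=
  (hp.not.or hq).of_eq fun a => by tauto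

lemma pr_product {γ : Type} [Primcodable γ] {f : α → List β} {g : α → List γ} (hf : Primrec f)
    (hg : Primrec g) : Primrec fun a => (f a).product (g a) := by
  have h : Primrec fun a => (f a).flatMap fun b => (g a).map fun c => (b, c) := by
    refine Primrec.list_flatMap hf ?_
    refine Primrec.list_map (hg.comp Primrec.fst) ?_
    exact Primrec.pair (Primrec.snd.comp Primrec.fst) Primrec.snd
  exact h

lemma pp_ev {k : α → ℕ} {c : α → Code} {n : α → ℕ} (hk : Primrec k)
    (hc : Primrec c) (hn : Primrec n) :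
    PrimrecPred fun a => (Code.evaln (k a) (c a) (n a)).isSome = true :=
  Primrec.eq.comp (Primrec.option_isSome.comp
    (Code.primrec_evaln.comp (Primrec.pair (Primrec.pair hk hc) hn))) (Primrec.const true)

end comb

/-- the strings of length `n` -/
def strs : ℕ → List (List Bool)
  | 0 => [[]]
  | n + 1 => (strs n).flatMap fun σ => [σ ++ [false], σ ++ [true]]

lemma mem_strs {n : ℕ} {σ : List Bool} : σ ∈ strs n ↔ σ.length = n := by
  induction n generalizing σ with
  | zero => simp [strs]
  | succ n ih =>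
    simp only [strs, List.mem_flatMap, List.mem_cons, List.not_mem_nil, or_false]
    constructor
    · rintro ⟨τ, hτ, rfl | rfl⟩ <;> simp [ih.1 hτ]
    · intro h
      have hne : σ ≠ [] := by rintro rfl; simp at h
      refine ⟨σ.dropLast, ih.2 (by simp [h]), ?_⟩
      have h1 := List.dropLast_append_getLast hne
      rcases hb : σ.getLast hne with _ | _
      · left; rw [hb] at h1; exact h1.symm
      · right; rw [hb] at h1; exact h1.symm

lemma primrec_strs : Primrec strs := by
  have h : Primrec fun n : ℕ => Nat.rec (motive := fun _ => List (List Bool)) [[]]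
      (fun _ L => L.flatMap fun σ => [σ ++ [false], σ ++ [true]]) n := by
    refine Primrec.nat_rec₁ _ ?_
    refine Primrec.list_flatMap Primrec.snd ?_
    refine Primrec.list_cons.comp (Primrec.list_append.comp Primrec.snd (Primrec.const _))
      (Primrec.list_cons.comp (Primrec.list_append.comp Primrec.snd (Primrec.const _))
        (Primrec.const []))
  refine h.of_eq fun n => ?_
  induction n with
  | zero => rfl
  | succ n ih => simp only [strs]; rw [← ih]

/-- the parameters of the operators: a colour `j`, a number `l` of a tree, and a number `i` -/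
abbrev Par : Type := (Bool × Bool) × ℕ

/-- the indices: a code for a tree, a list of parameters, and a code for a family of operators -/
abbrev Idx : Type := Code × (List Par × Code)

/-- the index with the number `e` -/
def dec (e : ℕ) : Idx := (decode e : Option Idx).getD (Code.zero, ([], Code.zero))

lemma dec_encode (x : Idx) : dec (encode x) = x := by simp [dec]

lemma pr_dec : Primrec dec :=
  Primrec.option_getD.comp Primrec.decode (Primrec.const _)

/-- the number of an argument of the operators -/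
def enc (p : (Par × List Bool) × ℕ) : ℕ := @encode _ Primcodable.toEncodable p

lemma pr_enc : Primrec enc := Primrec.encode

/-- the tree number `e` -/
def TT (e : ℕ) (σ : List Bool) : Prop :=
  ∀ t < σ.length + 1, ¬ (Code.evaln σ.length (dec e).1 (encode (σ.take t))).isSome = true

/-- `y` is an output of the operator number `e` on `σ`, for the parameter `q` -/
def Out (e : ℕ) (q : Par) (σ : List Bool) (y : ℕ) : Prop :=
  ∃ t < σ.length + 1,
    (Code.evaln σ.length (dec e).2.2 (enc ((q, σ.take t), y))).isSome = true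

lemma pp_TT : PrimrecPred fun p : ℕ × List Bool => TT p.1 p.2 := by
  refine pp_allLt (Primrec.succ.comp (Primrec.list_length.comp Primrec.snd))
    (PrimrecPred.not ?_)
  exact pp_ev (Primrec.list_length.comp (Primrec.snd.comp Primrec.fst))
    (Primrec.fst.comp (pr_dec.comp (Primrec.fst.comp Primrec.fst)))
    (Primrec.encode.comp (Primrec.list_take.comp Primrec.snd (Primrec.snd.comp Primrec.fst)))

/-- an argument of `Out` -/
abbrev OArg : Type := (ℕ × Par) × (List Bool × ℕ)

lemma pp_Out : PrimrecPred fun p : OArg => Out p.1.1 p.1.2 p.2.1 p.2.2 := by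
  refine pp_exLt (α := OArg) (f := fun p => p.2.1.length + 1) (R := fun p t =>
    (Code.evaln p.2.1.length (dec p.1.1).2.2
      (enc ((p.1.2, p.2.1.take t), p.2.2))).isSome = true) ?_ ?_
  · exact Primrec.succ.comp (Primrec.list_length.comp (Primrec.fst.comp Primrec.snd))
  · have hσ : Primrec fun p : OArg × ℕ => p.1.2.1 :=
      Primrec.fst.comp (Primrec.snd.comp Primrec.fst)
    have he : Primrec fun p : OArg × ℕ => p.1.1.1 :=
      Primrec.fst.comp (Primrec.fst.comp Primrec.fst)
    have hq : Primrec fun p : OArg × ℕ => p.1.1.2 :=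
      Primrec.snd.comp (Primrec.fst.comp Primrec.fst)
    have hy : Primrec fun p : OArg × ℕ => p.1.2.2 :=
      Primrec.snd.comp (Primrec.snd.comp Primrec.fst)
    have h1 : Primrec fun p : OArg × ℕ => enc ((p.1.1.2, p.1.2.1.take p.2), p.1.2.2) :=
      pr_enc.comp (Primrec.pair
        (Primrec.pair hq (Primrec.list_take.comp Primrec.snd hσ)) hy)
    exact pp_ev (Primrec.list_length.comp hσ)
      (Primrec.snd.comp (Primrec.snd.comp (pr_dec.comp he))) h1

/-- `F` is contained in the side `j` of `σ`, below `n` -/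
def Sub (j : Bool) (F σ : List Bool) (n : ℕ) : Prop :=
  ∀ x < n, F.getD x false = true → σ.getD x false = j

lemma pp_Sub : PrimrecPred fun p : (Bool × List Bool) × (List Bool × ℕ) =>
    Sub p.1.1 p.1.2 p.2.1 p.2.2 := by
  refine pp_allLt (Primrec.snd.comp Primrec.snd) (pp_imp ?_ ?_)
  · exact Primrec.eq.comp ((Primrec.list_getD false).comp
      (Primrec.snd.comp (Primrec.fst.comp Primrec.fst)) Primrec.snd) (Primrec.const true)
  · exact Primrec.eq.comp ((Primrec.list_getD false).comp
      (Primrec.fst.comp (Primrec.snd.comp Primrec.fst)) Primrec.snd)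
      (Primrec.fst.comp (Primrec.fst.comp Primrec.fst))

lemma pp_Sub' {α : Type} [Primcodable α] {j : α → Bool} {F σ : α → List Bool} {n : α → ℕ}
    (hj : Primrec j) (hF : Primrec F) (hσ : Primrec σ) (hn : Primrec n) :
    PrimrecPred fun a => Sub (j a) (F a) (σ a) (n a) :=
  pp_Sub.comp (Primrec.pair (Primrec.pair hj hF) (Primrec.pair hσ hn))

lemma pp_Out' {α : Type} [Primcodable α] {e : α → ℕ} {q : α → Par} {σ : α → List Bool}
    {y : α → ℕ} (he : Primrec e) (hq : Primrec q) (hσ : Primrec σ) (hy : Primrec y) :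
    PrimrecPred fun a => Out (e a) (q a) (σ a) (y a) :=
  pp_Out.comp (Primrec.pair (Primrec.pair he hq) (Primrec.pair hσ hy))

lemma pp_TT' {α : Type} [Primcodable α] {e : α → ℕ} {σ : α → List Bool}
    (he : Primrec e) (hσ : Primrec σ) : PrimrecPred fun a => TT (e a) (σ a) :=
  pp_TT.comp (Primrec.pair he hσ)

/-- a string and two subsets of its sides -/
abbrev Seed : Type := List Bool × (List Bool × List Bool)

/-- the subset of the side `j` -/
def sd (j : Bool) (S : Seed) : List Bool := if j then S.2.2 else S.2.1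

lemma pr_sd : Primrec₂ sd := by
  have h : Primrec fun p : Bool × Seed => cond p.1 p.2.2.2 p.2.2.1 :=
    Primrec.cond Primrec.fst (Primrec.snd.comp (Primrec.snd.comp Primrec.snd))
      (Primrec.fst.comp (Primrec.snd.comp Primrec.snd))
  exact h.of_eq fun p => by rcases p with ⟨_ | _, A⟩ <;> rfl

/-- the candidates `((e, b), ((ρ, (F₀, F₁)), (γ₀, γ₁)))` -/
abbrev Cand : Type := (ℕ × ℕ) × (Seed × (List Bool × List Bool))

/-- the actions: a candidate and a stage -/
abbrev Act : Type := Cand × ℕ

/-- all strings in the tree of length `u` have subsets of their sides with outputs in `[b, u)`,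
for all parameters -/
def GG (e b u : ℕ) : Prop :=
  ∀ ρ ∈ strs u, TT e ρ → ∀ j, ∃ F ∈ strs u, Sub j F ρ u ∧
    ∀ q ∈ (dec e).2.1, q.1.1 = j → ∃ x < u, b ≤ x ∧ Out e q F x

/-- `u` is the least number with `GG` -/
def IsU (e b u : ℕ) : Prop := GG e b u ∧ ∀ u' < u, ¬ GG e b u'

/-- the colouring of the action -/
def gam (l : Bool) (A : Act) : List Bool := if l then A.1.2.2.2 else A.1.2.2.1

/-- the colouring `g` is equal to the colouring of the action or to its complement on the interval
of the action -/
def Resp (l : Bool) (A : Act) (g : List Bool) : Prop :=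
  ∃ c : Bool, ∀ x < A.2, A.1.1.2 ≤ x → g.getD x false = xor ((gam l A).getD x false) c

/-- `b` is the restraint for `e` -/
def IsRestr (h : List Act) (e b : ℕ) : Prop :=
  (b = 0 ∨ ∃ A ∈ h, A.1.1.1 < e ∧ A.2 = b) ∧ ∀ A ∈ h, A.1.1.1 < e → A.2 ≤ b

/-- every string in the tree of length `s` that extends `ρ` has a subset of a side that extends
the given one and has two outputs with different colours -/
def KK (c : Cand) (s : ℕ) : Prop :=
  ∀ σ ∈ strs s, TT c.1.1 σ → σ.take c.2.1.1.length = c.2.1.1 →
    ∃ q ∈ (dec c.1.1).2.1, ∃ F ∈ strs s, Sub q.1.1 F σ s ∧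
    F.take c.2.1.1.length = sd q.1.1 c.2.1 ∧
    ∃ y < s, c.1.2 ≤ y ∧ Out c.1.1 q F y ∧ ∃ z < s, c.1.2 ≤ z ∧ Out c.1.1 q F z ∧
      (gam q.1.2 (c, s)).getD y false ≠ (gam q.1.2 (c, s)).getD z false

/-- the candidate may act -/
def P0 (h : List Act) (s : ℕ) (c : Cand) : Prop :=
  IsRestr h c.1.1 c.1.2 ∧ IsU c.1.1 c.1.2 c.2.1.1.length ∧
  (c.2.1.2.1.length = c.2.1.1.length ∧ c.2.1.2.2.length = c.2.1.1.length) ∧
  (∀ A ∈ h, A.1.1 = c.1 → A.1.2.1 ≠ c.2.1) ∧
  (∀ A ∈ h, ∀ l, Resp l A (gam l (c, s))) ∧ KK c s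

/-- the candidates at stage `s` -/
def cand (s : ℕ) : List Cand :=
  ((List.range s).product (List.range (s + 1))).product
    ((((List.range (s + 1)).flatMap strs).product
      (((List.range (s + 1)).flatMap strs).product ((List.range (s + 1)).flatMap strs))).product
      ((strs s).product (strs s)))

/-- the candidate may act, and no candidate with smaller `e` may -/
def PP (h : List Act) (s : ℕ) (c : Cand) : Prop :=
  P0 h s c ∧ ∀ c' ∈ cand s, c'.1.1 < c.1.1 → ¬ P0 h s c'

open Classical in
/-- one step -/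
noncomputable def step (s : ℕ) (h : List Act) : List Act :=
  match (cand s)[(cand s).findIdx fun c => decide (PP h s c)]? with
  | Option.none => h
  | Option.some c => (c, s) :: h

/-- the history: the actions before stage `s` -/
noncomputable def hist : ℕ → List Act
  | 0 => []
  | s + 1 => step s (hist s)

/-- the tree number `l` -/
def YT (l : Bool) (τ : List Bool) : Prop := ∀ A ∈ hist τ.length, Resp l A τ

lemma pp_GG : PrimrecPred fun p : (ℕ × ℕ) × ℕ => GG p.1.1 p.1.2 p.2 := by
  have q0 : Primrec fun p : ((((ℕ × ℕ) × ℕ) × List Bool) × Bool) × List Bool => p.1.1.1 :=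
    Primrec.fst.comp (Primrec.fst.comp Primrec.fst)
  have qρ : Primrec fun p : ((((ℕ × ℕ) × ℕ) × List Bool) × Bool) × List Bool => p.1.1.2 :=
    Primrec.snd.comp (Primrec.fst.comp Primrec.fst)
  have qj : Primrec fun p : ((((ℕ × ℕ) × ℕ) × List Bool) × Bool) × List Bool => p.1.2 :=
    Primrec.snd.comp Primrec.fst
  refine pp_all (α := (ℕ × ℕ) × ℕ) (f := fun p => strs p.2) (primrec_strs.comp Primrec.snd) ?_
  refine pp_imp (pp_TT' (Primrec.fst.comp (Primrec.fst.comp Primrec.fst)) Primrec.snd) ?_
  refine pp_allB ?_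
  refine pp_ex (primrec_strs.comp (Primrec.snd.comp (Primrec.fst.comp Primrec.fst))) ?_
  refine PrimrecPred.and (pp_Sub' qj Primrec.snd qρ (Primrec.snd.comp q0)) ?_
  refine pp_all (Primrec.fst.comp (Primrec.snd.comp (pr_dec.comp
    (Primrec.fst.comp (Primrec.fst.comp q0))))) ?_
  refine pp_imp (Primrec.eq.comp (Primrec.fst.comp (Primrec.fst.comp Primrec.snd))
    (qj.comp Primrec.fst)) ?_
  refine pp_exLt (Primrec.snd.comp (q0.comp Primrec.fst)) ?_
  refine PrimrecPred.and (Primrec.nat_le.comp (Primrec.snd.comp (Primrec.fst.comp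
    (q0.comp (Primrec.fst.comp Primrec.fst)))) Primrec.snd) ?_
  exact pp_Out' (Primrec.fst.comp (Primrec.fst.comp
    (q0.comp (Primrec.fst.comp Primrec.fst)))) (Primrec.snd.comp Primrec.fst)
    (Primrec.snd.comp (Primrec.fst.comp Primrec.fst)) Primrec.snd

lemma pp_IsU : PrimrecPred fun p : (ℕ × ℕ) × ℕ => IsU p.1.1 p.1.2 p.2 := by
  refine pp_GG.and ?_
  refine pp_allLt Primrec.snd ?_
  exact (pp_GG.comp (Primrec.pair (Primrec.fst.comp Primrec.fst) Primrec.snd)).not

lemma pr_gam : Primrec₂ gam := by
  have h : Primrec fun p : Bool × Act => cond p.1 p.2.1.2.2.2 p.2.1.2.2.1 :=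
    Primrec.cond Primrec.fst
      (Primrec.snd.comp (Primrec.snd.comp (Primrec.snd.comp (Primrec.fst.comp Primrec.snd))))
      (Primrec.fst.comp (Primrec.snd.comp (Primrec.snd.comp (Primrec.fst.comp Primrec.snd))))
  exact h.of_eq fun p => by rcases p with ⟨_ | _, A⟩ <;> rfl

lemma pp_Resp : PrimrecPred fun p : (Bool × Act) × List Bool => Resp p.1.1 p.1.2 p.2 := by
  refine pp_exB ?_
  refine pp_allLt (f := fun p : ((Bool × Act) × List Bool) × Bool => p.1.1.2.2) ?_ ?_
  · exact Primrec.snd.comp (Primrec.snd.comp (Primrec.fst.comp Primrec.fst))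
  · have pA : Primrec fun p : (((Bool × Act) × List Bool) × Bool) × ℕ => p.1.1.1.2 :=
      Primrec.snd.comp (Primrec.fst.comp (Primrec.fst.comp Primrec.fst))
    have pl : Primrec fun p : (((Bool × Act) × List Bool) × Bool) × ℕ => p.1.1.1.1 :=
      Primrec.fst.comp (Primrec.fst.comp (Primrec.fst.comp Primrec.fst))
    have pg : Primrec fun p : (((Bool × Act) × List Bool) × Bool) × ℕ => p.1.1.2 :=
      Primrec.snd.comp (Primrec.fst.comp Primrec.fst)
    have pc : Primrec fun p : (((Bool × Act) × List Bool) × Bool) × ℕ => p.1.2 :=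
      Primrec.snd.comp Primrec.fst
    refine pp_imp (Primrec.nat_le.comp
      ((Primrec.snd.comp (Primrec.fst.comp Primrec.fst)).comp pA) Primrec.snd) ?_
    refine PrimrecRel.comp Primrec.eq ((Primrec.list_getD false).comp pg Primrec.snd) ?_
    exact (Primrec.dom_finite fun q : Bool × Bool => xor q.1 q.2).comp
      (Primrec.pair ((Primrec.list_getD false).comp (pr_gam.comp pl pA) Primrec.snd) pc)

lemma pp_IsRestr : PrimrecPred fun p : List Act × (ℕ × ℕ) => IsRestr p.1 p.2.1 p.2.2 := by
  have hA : Primrec fun p : (List Act × (ℕ × ℕ)) × Act => p.2 := Primrec.snd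
  have he : Primrec fun p : (List Act × (ℕ × ℕ)) × Act => p.1.2.1 :=
    Primrec.fst.comp (Primrec.snd.comp Primrec.fst)
  have hb : Primrec fun p : (List Act × (ℕ × ℕ)) × Act => p.1.2.2 :=
    Primrec.snd.comp (Primrec.snd.comp Primrec.fst)
  have h1 : PrimrecPred fun p : (List Act × (ℕ × ℕ)) × Act => p.2.1.1.1 < p.1.2.1 :=
    Primrec.nat_lt.comp ((Primrec.fst.comp (Primrec.fst.comp Primrec.fst)).comp hA) he
  refine PrimrecPred.and (PrimrecPred.or
    (Primrec.eq.comp (Primrec.snd.comp Primrec.snd) (Primrec.const 0)) ?_) ?_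
  · exact pp_ex Primrec.fst (h1.and (Primrec.eq.comp (Primrec.snd.comp hA) hb))
  · exact pp_all Primrec.fst (pp_imp h1 (Primrec.nat_le.comp (Primrec.snd.comp hA) hb))

/-- two outputs with different colours -/
lemma pp_KK1 : PrimrecPred fun p : ((Cand × ℕ) × Par) × List Bool =>
    ∃ y < p.1.1.2, p.1.1.1.1.2 ≤ y ∧ Out p.1.1.1.1.1 p.1.2 p.2 y ∧
      ∃ z < p.1.1.2, p.1.1.1.1.2 ≤ z ∧ Out p.1.1.1.1.1 p.1.2 p.2 z ∧
      (gam p.1.2.1.2 p.1.1).getD y false ≠ (gam p.1.2.1.2 p.1.1).getD z false := by
  have q0 : Primrec fun p : (((Cand × ℕ) × Par) × List Bool) × ℕ => p.1.1.1 :=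
    Primrec.fst.comp (Primrec.fst.comp Primrec.fst)
  have qs : Primrec fun p : (((Cand × ℕ) × Par) × List Bool) × ℕ => p.1.1.1.2 :=
    Primrec.snd.comp q0
  have qe : Primrec fun p : (((Cand × ℕ) × Par) × List Bool) × ℕ => p.1.1.1.1.1.1 :=
    Primrec.fst.comp (Primrec.fst.comp (Primrec.fst.comp q0))
  have qb : Primrec fun p : (((Cand × ℕ) × Par) × List Bool) × ℕ => p.1.1.1.1.1.2 :=
    Primrec.snd.comp (Primrec.fst.comp (Primrec.fst.comp q0))
  have qj : Primrec fun p : (((Cand × ℕ) × Par) × List Bool) × ℕ => p.1.1.2 :=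
    Primrec.snd.comp (Primrec.fst.comp Primrec.fst)
  have qF : Primrec fun p : (((Cand × ℕ) × Par) × List Bool) × ℕ => p.1.2 :=
    Primrec.snd.comp Primrec.fst
  refine pp_exLt (Primrec.snd.comp (Primrec.fst.comp Primrec.fst)) ?_
  refine (Primrec.nat_le.comp qb Primrec.snd).and ((pp_Out' qe qj qF Primrec.snd).and ?_)
  refine pp_exLt qs ?_
  refine (Primrec.nat_le.comp (qb.comp Primrec.fst) Primrec.snd).and ((pp_Out'
    (qe.comp Primrec.fst) (qj.comp Primrec.fst) (qF.comp Primrec.fst) Primrec.snd).and ?_)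
  refine PrimrecPred.not ?_
  refine Primrec.eq.comp ((Primrec.list_getD false).comp (pr_gam.comp
    (Primrec.snd.comp (Primrec.fst.comp (qj.comp Primrec.fst))) (q0.comp Primrec.fst))
    (Primrec.snd.comp Primrec.fst))
    ((Primrec.list_getD false).comp (pr_gam.comp
    (Primrec.snd.comp (Primrec.fst.comp (qj.comp Primrec.fst))) (q0.comp Primrec.fst))
    Primrec.snd)

lemma pp_KK : PrimrecPred fun p : Cand × ℕ => KK p.1 p.2 := by
  have q0 : Primrec fun p : (((Cand × ℕ) × List Bool) × Par) × List Bool => p.1.1.1 :=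
    Primrec.fst.comp (Primrec.fst.comp Primrec.fst)
  have qσ : Primrec fun p : (((Cand × ℕ) × List Bool) × Par) × List Bool => p.1.1.2 :=
    Primrec.snd.comp (Primrec.fst.comp Primrec.fst)
  have qq : Primrec fun p : (((Cand × ℕ) × List Bool) × Par) × List Bool => p.1.2 :=
    Primrec.snd.comp Primrec.fst
  have qS : Primrec fun p : Cand × ℕ => p.1.2.1 :=
    Primrec.fst.comp (Primrec.snd.comp Primrec.fst)
  have qρ : Primrec fun p : Cand × ℕ => p.1.2.1.1 := Primrec.fst.comp qS
  have qe : Primrec fun p : Cand × ℕ => p.1.1.1 :=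
    Primrec.fst.comp (Primrec.fst.comp Primrec.fst)
  refine pp_all (α := Cand × ℕ) (f := fun p => strs p.2) (primrec_strs.comp Primrec.snd) ?_
  refine pp_imp (pp_TT' (qe.comp Primrec.fst) Primrec.snd) (pp_imp ?_ ?_)
  · exact Primrec.eq.comp (Primrec.list_take.comp
      (Primrec.list_length.comp (qρ.comp Primrec.fst)) Primrec.snd) (qρ.comp Primrec.fst)
  refine pp_ex (Primrec.fst.comp (Primrec.snd.comp (pr_dec.comp (qe.comp Primrec.fst)))) ?_
  refine pp_ex (primrec_strs.comp (Primrec.snd.comp (Primrec.fst.comp Primrec.fst))) ?_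
  refine PrimrecPred.and ?_ (PrimrecPred.and ?_ ?_)
  · exact pp_Sub' (Primrec.fst.comp (Primrec.fst.comp qq)) Primrec.snd qσ (Primrec.snd.comp q0)
  · exact Primrec.eq.comp (Primrec.list_take.comp
      (Primrec.list_length.comp (qρ.comp q0)) Primrec.snd)
      (pr_sd.comp (Primrec.fst.comp (Primrec.fst.comp qq)) (qS.comp q0))
  · exact pp_KK1.comp (Primrec.pair (Primrec.pair q0 qq) Primrec.snd)

lemma pp_P0 : PrimrecPred fun p : (List Act × ℕ) × Cand => P0 p.1.1 p.1.2 p.2 := by
  have qh : Primrec fun p : (List Act × ℕ) × Cand => p.1.1 := Primrec.fst.comp Primrec.fst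
  have qs : Primrec fun p : (List Act × ℕ) × Cand => p.1.2 := Primrec.snd.comp Primrec.fst
  have qe : Primrec fun p : (List Act × ℕ) × Cand => p.2.1 := Primrec.fst.comp Primrec.snd
  have qS : Primrec fun p : (List Act × ℕ) × Cand => p.2.2.1 :=
    Primrec.fst.comp (Primrec.snd.comp Primrec.snd)
  have qρ : Primrec fun p : (List Act × ℕ) × Cand => p.2.2.1.1.length :=
    Primrec.list_length.comp (Primrec.fst.comp qS)
  refine PrimrecPred.and (pp_IsRestr.comp (Primrec.pair qh qe)) (PrimrecPred.and
    (pp_IsU.comp (Primrec.pair qe qρ)) (PrimrecPred.and ?_ (PrimrecPred.and ?_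
    (PrimrecPred.and ?_ (pp_KK.comp (Primrec.pair Primrec.snd qs))))))
  · exact PrimrecPred.and
      (Primrec.eq.comp (Primrec.list_length.comp (Primrec.fst.comp (Primrec.snd.comp qS))) qρ)
      (Primrec.eq.comp (Primrec.list_length.comp (Primrec.snd.comp (Primrec.snd.comp qS))) qρ)
  · refine pp_all qh (pp_imp (Primrec.eq.comp (Primrec.fst.comp (Primrec.fst.comp Primrec.snd))
      (qe.comp Primrec.fst)) (Primrec.eq.comp (Primrec.fst.comp (Primrec.snd.comp
        (Primrec.fst.comp Primrec.snd))) (qS.comp Primrec.fst)).not)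
  · refine pp_all qh (pp_allB ?_)
    exact pp_Resp.comp (Primrec.pair (Primrec.pair Primrec.snd (Primrec.snd.comp Primrec.fst))
      (pr_gam.comp Primrec.snd ((Primrec.pair Primrec.snd qs).comp
        (Primrec.fst.comp Primrec.fst))))

lemma primrec_cand : Primrec cand := by
  have h : Primrec fun s : ℕ => (List.range (s + 1)).flatMap strs :=
    Primrec.list_flatMap (Primrec.list_range.comp Primrec.succ) (primrec_strs.comp Primrec.snd)
  exact pr_product (pr_product Primrec.list_range (Primrec.list_range.comp Primrec.succ))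
    (pr_product (pr_product h (pr_product h h)) (pr_product primrec_strs primrec_strs))

lemma pp_PP : PrimrecPred fun p : (List Act × ℕ) × Cand => PP p.1.1 p.1.2 p.2 := by
  refine pp_P0.and (pp_all (primrec_cand.comp (Primrec.snd.comp Primrec.fst)) (pp_imp ?_ ?_))
  · exact Primrec.nat_lt.comp (Primrec.fst.comp (Primrec.fst.comp Primrec.snd))
      (Primrec.fst.comp (Primrec.fst.comp (Primrec.snd.comp Primrec.fst)))
  · exact (pp_P0.comp (Primrec.pair (Primrec.fst.comp Primrec.fst) Primrec.snd)).not

lemma pr_step : Primrec₂ step := by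
  classical
  obtain ⟨hd, hp⟩ := pp_PP
  have h1 : Primrec fun p : ℕ × List Act =>
      (cand p.1)[(cand p.1).findIdx fun c => decide (PP p.2 p.1 c)]? := by
    refine Primrec.list_getElem?.comp (primrec_cand.comp Primrec.fst) ?_
    refine Primrec.list_findIdx (primrec_cand.comp Primrec.fst) ?_
    have h2 : Primrec fun p : (ℕ × List Act) × Cand => decide (PP p.1.2 p.1.1 p.2) :=
      (hp.comp (Primrec.pair (Primrec.pair (Primrec.snd.comp Primrec.fst)
        (Primrec.fst.comp Primrec.fst)) Primrec.snd)).of_eq fun p => by congr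
    exact h2
  have h3 : Primrec fun p : ℕ × List Act => Option.casesOn (motive := fun _ => List Act)
      ((cand p.1)[(cand p.1).findIdx fun c => decide (PP p.2 p.1 c)]?) p.2
      fun c => (c, p.1) :: p.2 := by
    refine Primrec.option_casesOn h1 Primrec.snd ?_
    exact Primrec.list_cons.comp (Primrec.pair Primrec.snd (Primrec.fst.comp Primrec.fst))
      (Primrec.snd.comp Primrec.fst)
  refine h3.of_eq fun p => ?_
  rw [step]
  rcases (cand p.1)[(cand p.1).findIdx fun c => decide (PP p.2 p.1 c)]? with _ | c <;> rfl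

lemma pr_hist : Primrec hist := by
  have h : Primrec fun n : ℕ => Nat.rec (motive := fun _ => List Act) []
      (fun n h => step n h) n := Primrec.nat_rec₁ _ pr_step
  refine h.of_eq fun n => ?_
  induction n with
  | zero => rfl
  | succ n ih => simp only [hist]; rw [← ih]

lemma pp_YT (l : Bool) : PrimrecPred (YT l) := by
  refine pp_all (pr_hist.comp Primrec.list_length) ?_
  exact pp_Resp.comp (Primrec.pair (Primrec.pair (Primrec.const l) Primrec.snd) Primrec.fst)

end Pool.Agent.H651.RN
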